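import Mathlib
import Pool.Agent.H.MP_bfbbee_an.CurveLen

/-!
# The distance along a geodesic is at most the length
-/

set_option autoImplicit false

namespace Pool.Agent.H.MP_bfbbee_an.ES

open Filter Topology

theorem geo_dst_le {u : ℂ → ℝ} {A : ℝ} (M : Met u A) {s t : ℝ} (hst : s ≤ t) {z : ℝ → ℂ}
    {θ : ℝ → ℝ} (h : IsGeodesicOn u s t z θ) : dst u (z s) (z t) ≤ t - s := by
  have hc : ContinuousOn (fun x => dir (θ x) / (rho u (z x) : ℂ)) (Set.Icc s t) := by
    have hz : ContinuousOn z (Set.Icc s t) := fun x hx => (h x hx).2.1.continuousWithinAt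
    have hθ : ContinuousOn θ (Set.Icc s t) := fun x hx => (h x hx).2.2.continuousWithinAt
    have hr : ContinuousOn (fun x => rho u (z x)) (Set.Icc s t) :=
      (rho_contDiffOn M).continuousOn.comp hz (fun x hx => (h x hx).1)
    refine ContinuousOn.div ?_ (Complex.continuous_ofReal.comp_continuousOn hr)
      (fun x hx => by exact_mod_cast (rho_pos u (h x hx).1).ne')
    unfold dir
    exact Complex.continuous_exp.comp_continuousOn
      ((Complex.continuous_ofReal.comp_continuousOn hθ).mul continuousOn_const)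
  refine (dst_le_length_C1 M hst (fun x hx => (h x hx).2.1) hc
    (fun x hx => (h x hx).1)).trans (le_of_eq ?_)
  have e : ∀ x ∈ Set.uIcc s t, rho u (z x) * ‖dir (θ x) / (rho u (z x) : ℂ)‖ = 1 := by
    intro x hx
    rw [Set.uIcc_of_le hst] at hx
    have hr := rho_pos u (h x hx).1
    rw [norm_div, norm_dir, Complex.norm_real, Real.norm_of_nonneg hr.le]
    field_simp
  rw [intervalIntegral.integral_congr e]
  simp

end Pool.Agent.H.MP_bfbbee_an.ES
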