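import Mathlib
import Pool.Agent.H.MP_bfbbee_an.SymA

/-!
# The image of a geodesic under an isometry is a geodesic
-/

set_option autoImplicit false

namespace Pool.Agent.H.MP_bfbbee_an.ES

open Filter Topology

theorem re_den_pos {a z : ℂ} (ha : ‖a‖ < 1) (hz : z ∈ Disc) :
    0 < (1 - (starRingEnd ℂ) a * z).re := by
  have hz1 : ‖z‖ < 1 := mem_ball_zero_iff.1 hz
  have h1 : ((starRingEnd ℂ) a * z).re ≤ ‖(starRingEnd ℂ) a * z‖ := Complex.re_le_norm _
  rw [norm_mul, Complex.norm_conj] at h1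
  have h2 : ‖a‖ * ‖z‖ < 1 := by nlinarith [norm_nonneg a, norm_nonneg z]
  rw [Complex.sub_re, Complex.one_re]
  linarith

theorem log_den_deriv {a z : ℂ} (ha : ‖a‖ < 1) (hz : z ∈ Disc) :
    HasDerivAt (fun x : ℂ => Complex.log (1 - (starRingEnd ℂ) a * x))
      (-(starRingEnd ℂ) a / (1 - (starRingEnd ℂ) a * z)) z := by
  have h2 : HasDerivAt (fun x : ℂ => 1 - (starRingEnd ℂ) a * x) (-(starRingEnd ℂ) a) z := by
    simpa using ((hasDerivAt_id z).const_mul ((starRingEnd ℂ) a)).const_sub 1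
  exact h2.clog (Or.inl (re_den_pos ha hz))

theorem phi_mob {u : ℂ → ℝ} {w a : ℂ} (h : Sym u w a) {z : ℂ} (hz : z ∈ Disc) :
    phi u (mob w a z) = phi u z - Real.log (1 - ‖a‖ ^ 2) +
      2 * (Complex.log (1 - (starRingEnd ℂ) a * z)).re := by
  have h1 := h.rho_eq hz
  have hz1 : ‖z‖ < 1 := mem_ball_zero_iff.1 hz
  have hm : ‖mobd w a z‖ ≠ 0 := norm_ne_zero_iff.2 (mobd_ne h.hw h.ha hz1.le)
  have h2 : phi u z = phi u (mob w a z) + Real.log ‖mobd w a z‖ := by
    unfold phi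
    rw [← h1, Real.log_mul (rho_pos u (mob_mem h.hw h.ha hz)).ne' hm]
  rw [h2, norm_mobd h.hw h.ha, Real.log_div (mob_aux1 h.ha).ne'
    (pow_ne_zero 2 (norm_ne_zero_iff.2 (den_ne h.ha hz1.le))), Real.log_pow, Complex.log_re]
  push_cast
  ring

theorem phi_fderiv {u : ℂ → ℝ} {A : ℝ} (M : Met u A) {z : ℂ} (hz : z ∈ Disc) :
    HasFDerivAt (phi u) (fderiv ℝ (phi u) z) z :=
  (((phi_contDiffOn M).contDiffAt (Metric.isOpen_ball.mem_nhds hz)).differentiableAt
    (by norm_num)).hasFDerivAt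

theorem fderiv_mob {u : ℂ → ℝ} {A : ℝ} (M : Met u A) {w a : ℂ} (h : Sym u w a) {z : ℂ}
    (hz : z ∈ Disc) (k : ℂ) :
    fderiv ℝ (phi u) (mob w a z) (mobd w a z * k) =
      fderiv ℝ (phi u) z k -
        2 * ((starRingEnd ℂ) a * k / (1 - (starRingEnd ℂ) a * z)).re := by
  have hz1 : ‖z‖ < 1 := mem_ball_zero_iff.1 hz
  have hy := mob_mem h.hw h.ha hz
  have hd1 := phi_fderiv M hy
  have hd2 := phi_fderiv M hz
  have hg := (mob_hasDerivAt (w := w) h.ha hz1.le).hasFDerivAt.restrictScalars ℝ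
  have hl := (log_den_deriv h.ha hz).hasFDerivAt.restrictScalars ℝ
  have h1 := hd1.comp z hg
  have h2 := Complex.reCLM.hasFDerivAt.comp z hl
  have h3 := (hd2.sub_const (Real.log (1 - ‖a‖ ^ 2))).add (h2.const_mul 2)
  have h4 : (phi u ∘ mob w a) =ᶠ[𝓝 z] (fun x => phi u x - Real.log (1 - ‖a‖ ^ 2) +
      2 * (Complex.log (1 - (starRingEnd ℂ) a * x)).re) := by
    filter_upwards [Metric.isOpen_ball.mem_nhds hz] with x hx
    exact phi_mob h hx
  have h5 := h1.unique (h3.congr_of_eventuallyEq h4)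
  have h6 := congrArg (fun L : ℂ →L[ℝ] ℝ => L k) h5
  simp only [ContinuousLinearMap.comp_apply, ContinuousLinearMap.add_apply,
    ContinuousLinearMap.smul_apply, ContinuousLinearMap.coe_restrictScalars',
    ContinuousLinearMap.toSpanSingleton_apply, smul_eq_mul, Complex.reCLM_apply] at h6
  have e1 : mobd w a z * k = k * mobd w a z := mul_comm _ _
  rw [e1, h6]
  have e2 : k * (-(starRingEnd ℂ) a / (1 - (starRingEnd ℂ) a * z)) =
      -((starRingEnd ℂ) a * k / (1 - (starRingEnd ℂ) a * z)) := by ring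
  rw [e2, Complex.neg_re]
  ring

theorem dir_add (s t : ℝ) : dir (s + t) = dir s * dir t := by
  unfold dir
  rw [← Complex.exp_add]
  congr 1
  push_cast
  ring

theorem dir_arg {v : ℂ} (hv : v ≠ 0) : dir (Complex.arg v) = v / (‖v‖ : ℂ) := by
  have h := Complex.norm_mul_exp_arg_mul_I v
  have hn : ((‖v‖ : ℝ) : ℂ) ≠ 0 := by exact_mod_cast norm_ne_zero_iff.2 hv
  unfold dir
  rw [eq_div_iff hn, mul_comm]
  exact h

theorem dir_neg (s : ℝ) : dir (-s) = (dir s)⁻¹ := by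
  unfold dir
  rw [← Complex.exp_neg]
  congr 1
  push_cast
  ring

/-- The image of a geodesic under an isometry is a geodesic. -/
theorem geo_mob {u : ℂ → ℝ} {A : ℝ} (M : Met u A) {w a : ℂ} (h : Sym u w a) {s t : ℝ}
    {z : ℝ → ℂ} {θ : ℝ → ℝ} (hg : IsGeodesicOn u s t z θ) :
    ∃ θ' : ℝ → ℝ, IsGeodesicOn u s t (fun x => mob w a (z x)) θ' := by
  refine ⟨fun x => θ x + Complex.arg w -
    2 * (Complex.log (1 - (starRingEnd ℂ) a * z x)).im, fun x hx => ?_⟩
  obtain ⟨hm, hz, hθ⟩ := hg x hx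
  have hn : ‖z x‖ < 1 := mem_ball_zero_iff.1 hm
  have hy := mob_mem h.hw h.ha hm
  have hD := den_ne h.ha hn.le
  have hw0 : w ≠ 0 := by
    rintro rfl
    have := h.hw
    simp at this
  have hm0 := mobd_ne (w := w) h.hw h.ha hn.le
  have h5 := h.rho_eq hm
  have hr : ((rho u (mob w a (z x)) : ℝ) : ℂ) ≠ 0 := by
    exact_mod_cast (rho_pos u hy).ne'
  have hr0 : ((rho u (z x) : ℝ) : ℂ) ≠ 0 := by
    exact_mod_cast (rho_pos u hm).ne'
  have hd : ((‖mobd w a (z x)‖ : ℝ) : ℂ) ≠ 0 := by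
    exact_mod_cast norm_ne_zero_iff.2 hm0
  have h6 : ((rho u (mob w a (z x)) : ℝ) : ℂ) * ((‖mobd w a (z x)‖ : ℝ) : ℂ) =
      ((rho u (z x) : ℝ) : ℂ) := by exact_mod_cast h5
  have hDn : ((‖1 - (starRingEnd ℂ) a * z x‖ : ℝ) : ℂ) ≠ 0 := by
    exact_mod_cast norm_ne_zero_iff.2 hD
  have ha1 : ((1 - ‖a‖ ^ 2 : ℝ) : ℂ) ≠ 0 := by exact_mod_cast (mob_aux1 h.ha).ne'
  -- the direction
  have hdir : dir (θ x + Complex.arg w - 2 * (Complex.log (1 - (starRingEnd ℂ) a * z x)).im) =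
      dir (θ x) * (mobd w a (z x) / (‖mobd w a (z x)‖ : ℂ)) := by
    have e1 : θ x + Complex.arg w - 2 * (Complex.log (1 - (starRingEnd ℂ) a * z x)).im =
        θ x + (Complex.arg w + (-(Complex.arg (1 - (starRingEnd ℂ) a * z x)) +
          -(Complex.arg (1 - (starRingEnd ℂ) a * z x)))) := by
      rw [Complex.log_im]; ring
    rw [e1, dir_add, dir_add, dir_add, dir_neg, dir_arg hw0, dir_arg hD, h.hw,
      norm_mobd h.hw h.ha]
    congr 1
    unfold mobd
    push_cast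
    have ha2 : (1 : ℂ) - (‖a‖ : ℂ) ^ 2 ≠ 0 := by
      have := ha1
      push_cast at this
      exact this
    field_simp
  refine ⟨hy, ?_, ?_⟩
  · have h3 := HasDerivAt.comp_hasDerivWithinAt (h₂ := mob w a) (h := z) x
      (mob_hasDerivAt (w := w) h.ha hn.le) hz
    refine h3.congr_deriv ?_
    simp only
    rw [hdir, ← h6]
    field_simp
  · have h3 := HasDerivAt.comp_hasDerivWithinAt
      (h₂ := fun x : ℂ => Complex.log (1 - (starRingEnd ℂ) a * x)) (h := z) x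
      (log_den_deriv h.ha hm) hz
    have h4 : HasDerivWithinAt
        (fun x => (Complex.log (1 - (starRingEnd ℂ) a * z x)).im)
        ((-(starRingEnd ℂ) a / (1 - (starRingEnd ℂ) a * z x) *
          (dir (θ x) / (rho u (z x) : ℂ))).im) (Set.Icc s t) x :=
      Complex.imCLM.hasFDerivAt.comp_hasDerivWithinAt x h3
    have h7 := (hθ.add_const (Complex.arg w)).sub (h4.const_mul 2)
    refine h7.congr_deriv ?_
    simp only
    rw [hdir]
    have h8 := fderiv_mob M h hm (Complex.I * dir (θ x))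
    unfold kap
    have e1 : Complex.I * (dir (θ x) * (mobd w a (z x) / (‖mobd w a (z x)‖ : ℂ))) =
        (‖mobd w a (z x)‖⁻¹ : ℝ) • (mobd w a (z x) * (Complex.I * dir (θ x))) := by
      rw [Complex.real_smul]
      push_cast
      field_simp
    rw [e1, map_smul, h8, ← h5, smul_eq_mul]
    have hn0 : ‖mobd w a (z x)‖ ≠ 0 := norm_ne_zero_iff.2 hm0
    have hrr : rho u (mob w a (z x)) ≠ 0 := (rho_pos u hy).ne'
    have e2 : (-(starRingEnd ℂ) a / (1 - (starRingEnd ℂ) a * z x) *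
        (dir (θ x) / ((rho u (mob w a (z x)) * ‖mobd w a (z x)‖ : ℝ) : ℂ))) =
        ((rho u (mob w a (z x)) * ‖mobd w a (z x)‖)⁻¹ : ℝ) •
          (-((starRingEnd ℂ) a * dir (θ x) / (1 - (starRingEnd ℂ) a * z x))) := by
      rw [Complex.real_smul]
      push_cast
      ring
    have e3 : (starRingEnd ℂ) a * (Complex.I * dir (θ x)) / (1 - (starRingEnd ℂ) a * z x) =
        Complex.I * ((starRingEnd ℂ) a * dir (θ x) / (1 - (starRingEnd ℂ) a * z x)) := by
      ring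
    rw [e2, e3, Complex.smul_im, Complex.neg_im, Complex.mul_re, Complex.I_re, Complex.I_im,
      smul_eq_mul]
    field_simp
    ring

end Pool.Agent.H.MP_bfbbee_an.ES
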