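import Mathlib
import Pool.Agent.H.MP_bfbbee_an.ES.Tr
import Pool.Agent.H.MP_bfbbee_an.ES.Le
import Pool.Agent.H.MP_bfbbee_an.LimA

/-!
# Almost minimal arcs of a fixed length
-/

set_option autoImplicit false

namespace Pool.Agent.H.MP_bfbbee_an.ES

open Filter Topology

theorem geo_dst_le' {u : ℂ → ℝ} {A : ℝ} (M : Met u A) {L : ℝ} {z : ℝ → ℂ}
    {θ : ℝ → ℝ} (h : IsGeodesicOn u 0 L z θ) {s t : ℝ} (hs : s ∈ Set.Icc (0 : ℝ) L)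
    (ht : t ∈ Set.Icc (0 : ℝ) L) : dst u (z s) (z t) ≤ |s - t| := by
  rcases le_total s t with hst | hst
  · rw [abs_sub_comm, abs_of_nonneg (by linarith : (0 : ℝ) ≤ t - s)]
    exact geo_dst_le M hst (h.mono hs.1 ht.2)
  · rw [dst_comm, abs_of_nonneg (by linarith : (0 : ℝ) ≤ s - t)]
    exact geo_dst_le M hst (h.mono ht.1 hs.2)

theorem compact_arcs {u : ℂ → ℝ} {A : ℝ} (M : Met u A) {F : ℂ × ℝ → ℝ}
    (hF : FirstIntegral u F) {R : ℝ} (hco : CocoF u F R) {c δ L : ℝ} (hL0 : 0 < L)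
    (hL : ∀ (σ : ℝ → ℂ) (θ : ℝ → ℝ), IsoOn u 0 L σ → IsGeodesicOn u 0 L σ θ →
      |F (σ 0, θ 0) - c| < δ) :
    ∃ ε > 0, ∀ (z : ℝ → ℂ) (θ : ℝ → ℝ), IsGeodesicOn u 0 L z θ →
      δ ≤ |F (z 0, θ 0) - c| → dst u (z 0) (z L) ≤ L - ε := by
  by_contra hcon
  push Not at hcon
  have hpos : ∀ n : ℕ, (0 : ℝ) < 1 / ((n : ℝ) + 1) := fun n => by positivity
  choose z θ hz hv hd using fun n : ℕ => hcon (1 / ((n : ℝ) + 1)) (hpos n)
  have h0 : (0 : ℝ) ∈ Set.Icc (0 : ℝ) L := ⟨le_rfl, hL0.le⟩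
  have hLL : L ∈ Set.Icc (0 : ℝ) L := ⟨hL0.le, le_rfl⟩
  choose w a hs hFs hm using fun n : ℕ => hco.move (z n 0) (hz n 0 h0).1
  choose θ' hθ' using fun n : ℕ => geo_mob M (hs n) (hz n)
  have hval : ∀ n : ℕ, F (mob (w n) (a n) (z n 0), θ' n 0) = F (z n 0, θ n 0) := fun n =>
    hFs n _ (hz n 0 h0).1 _ _ ((hs n).dir_eq hL0 (hz n) (hθ' n) h0)
  obtain ⟨R', hRR', hR'1, hconf⟩ := geo_confine M hco.pos hco.lt L hL0.le
  have hK : ∀ n, ∀ t ∈ Set.Icc (0 : ℝ) L,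
      mob (w n) (a n) (z n t) ∈ Metric.closedBall (0 : ℂ) R' := by
    intro n t ht
    rw [mem_closedBall_zero_iff]
    refine hconf 0 L _ _ (hθ' n) 0 h0 (hm n) t ht ?_
    rw [sub_zero, abs_of_nonneg ht.1]
    exact ht.2
  have hlim : ∀ t : ℝ, ∃ x : ℂ, t ∈ Set.Icc (0 : ℝ) L →
      x ∈ Metric.closedBall (0 : ℂ) R' ∧
        Tendsto (fun n => mob (w n) (a n) (z n t)) ul (𝓝 x) := by
    intro t
    by_cases ht : t ∈ Set.Icc (0 : ℝ) L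
    · obtain ⟨x, hx, hx'⟩ := exists_ul_lim (isCompact_closedBall (0 : ℂ) R')
        (f := fun n => mob (w n) (a n) (z n t)) (Filter.Eventually.of_forall fun n => hK n t ht)
      exact ⟨x, fun _ => ⟨hx, hx'⟩⟩
    · exact ⟨0, fun h => absurd h ht⟩
  choose σ hσ using hlim
  have hmem : ∀ t ∈ Set.Icc (0 : ℝ) L, σ t ∈ Disc := by
    intro t ht
    have h1 := (hσ t ht).1
    rw [mem_closedBall_zero_iff] at h1
    rw [Disc, mem_ball_zero_iff]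
    exact lt_of_le_of_lt h1 hR'1
  have hle : ∀ s ∈ Set.Icc (0 : ℝ) L, ∀ t ∈ Set.Icc (0 : ℝ) L,
      dst u (σ s) (σ t) ≤ |s - t| := by
    intro s hs' t ht
    refine le_of_tendsto (dst_tendsto M (hmem s hs') (hmem t ht) (hσ s hs').2 (hσ t ht).2) ?_
    exact Filter.Eventually.of_forall fun n => geo_dst_le' M (hθ' n) hs' ht
  have hge : L ≤ dst u (σ 0) (σ L) := by
    have h1 := dst_tendsto M (hmem 0 h0) (hmem L hLL) (hσ 0 h0).2 (hσ L hLL).2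
    have h2 : Tendsto (fun n : ℕ => L - 1 / ((n : ℝ) + 1)) ul (𝓝 L) := by
      have h3 := (tendsto_const_nhds (x := L) (f := (atTop : Filter ℕ))).sub
        (tendsto_one_div_add_atTop_nhds_zero_nat (𝕜 := ℝ))
      rw [sub_zero] at h3
      exact h3.mono_left ul_le
    refine le_of_tendsto_of_tendsto' h2 h1 (fun n => ?_)
    rw [(hs n).dst_eq M (hz n 0 h0).1 (hz n L hLL).1]
    exact (hd n).le
  have hiso : IsoOn u 0 L σ := isoOn_of_le M hmem hle (by rwa [sub_zero])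
  obtain ⟨ϑ, hϑ⟩ := iso_geodesic M hL0 hiso
  have hdir := dir_tendsto M hL0 (Eventually.of_forall hθ') hϑ (fun t ht => (hσ t ht).2) h0
  have h1 := F_tendsto hF (hmem 0 h0) (Eventually.of_forall fun n => (hθ' n 0 h0).1)
    (hσ 0 h0).2 hdir
  have h3 := (h1.sub_const c).abs
  have h4 : δ ≤ |F (σ 0, ϑ 0) - c| :=
    ge_of_tendsto h3 (Eventually.of_forall fun n => by
      rw [hval n]
      exact hv n)
  exact absurd (hL σ ϑ hiso hϑ) (not_lt.2 h4)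

/-- Summation over windows of length `L`. -/
theorem sum_windows {u : ℂ → ℝ} {A : ℝ} (M : Met u A) {F : ℂ × ℝ → ℝ}
    (hF : FirstIntegral u F) {c δ L ε : ℝ} (hL0 : 0 < L)
    (hε : ∀ (z : ℝ → ℂ) (θ : ℝ → ℝ), IsGeodesicOn u 0 L z θ →
      δ ≤ |F (z 0, θ 0) - c| → dst u (z 0) (z L) ≤ L - ε)
    {T : ℝ} {z : ℝ → ℂ} {θ : ℝ → ℝ} (hz : IsGeodesicOn u 0 T z θ)
    (hv : δ ≤ |F (z 0, θ 0) - c|) :
    ∀ n : ℕ, (n : ℝ) * L ≤ T → dst u (z 0) (z (n * L)) ≤ n * (L - ε) := by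
  intro n
  induction n with
  | zero =>
    intro hT
    have h0 : (0 : ℝ) ∈ Set.Icc (0 : ℝ) T := ⟨le_rfl, by simpa using hT⟩
    simp [dst_self M (hz 0 h0).1]
  | succ n ih =>
    intro hT
    push_cast at hT ⊢
    have hn0 : (0 : ℝ) ≤ (n : ℝ) := Nat.cast_nonneg n
    have hn1 : (n : ℝ) * L ≤ T := by nlinarith
    have hnL : 0 ≤ (n : ℝ) * L := by positivity
    have h1 := ih hn1
    have hm0 : (0 : ℝ) ∈ Set.Icc (0 : ℝ) T := ⟨le_rfl, hnL.trans hn1⟩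
    have hm1 : (n : ℝ) * L ∈ Set.Icc (0 : ℝ) T := ⟨hnL, hn1⟩
    have hm2 : ((n : ℝ) + 1) * L ∈ Set.Icc (0 : ℝ) T := ⟨by positivity, hT⟩
    have hw := (hz.mono (a' := (n : ℝ) * L) (b' := ((n : ℝ) + 1) * L) hnL hT).shift
      ((n : ℝ) * L)
    have e1 : (n : ℝ) * L - (n : ℝ) * L = 0 := by ring
    have e2 : ((n : ℝ) + 1) * L - (n : ℝ) * L = L := by ring
    rw [e1, e2] at hw
    have hinv := hF.inv 0 ((n : ℝ) * L) z θ hnL (hz.mono le_rfl hn1)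
    have h2 := hε _ _ hw (by
      show δ ≤ |F (z (0 + (n : ℝ) * L), θ (0 + (n : ℝ) * L)) - c|
      rw [zero_add, ← hinv]
      exact hv)
    have e3 : L + (n : ℝ) * L = ((n : ℝ) + 1) * L := by ring
    have h3 : dst u (z ((n : ℝ) * L)) (z (((n : ℝ) + 1) * L)) ≤ L - ε := by
      have h4 : dst u (z (0 + (n : ℝ) * L)) (z (L + (n : ℝ) * L)) ≤ L - ε := h2
      rwa [zero_add, e3] at h4
    have h5 := dst_triangle M (hz _ hm0).1 (hz _ hm1).1 (hz _ hm2).1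
    linarith

theorem escape {u : ℂ → ℝ} {A : ℝ} (M : Met u A) {F : ℂ × ℝ → ℝ}
    (hF : FirstIntegral u F) {c δ L ε : ℝ} (hL0 : 0 < L) (hε0 : 0 < ε)
    (hε : ∀ (z : ℝ → ℂ) (θ : ℝ → ℝ), IsGeodesicOn u 0 L z θ →
      δ ≤ |F (z 0, θ 0) - c| → dst u (z 0) (z L) ≤ L - ε)
    {T : ℝ} (hT : 0 ≤ T) {z : ℝ → ℂ} {θ : ℝ → ℝ} (hz : IsGeodesicOn u 0 T z θ)
    (hv : δ ≤ |F (z 0, θ 0) - c|) :
    dst u (z 0) (z T) ≤ (1 - ε / L) * T + ε := by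
  have hn1 : (⌊T / L⌋₊ : ℝ) ≤ T / L := Nat.floor_le (by positivity)
  have hn2 : T / L < (⌊T / L⌋₊ : ℝ) + 1 := Nat.lt_floor_add_one _
  generalize ⌊T / L⌋₊ = n at hn1 hn2
  have hn3 : (n : ℝ) * L ≤ T := by rwa [le_div_iff₀ hL0] at hn1
  have hn0 : (0 : ℝ) ≤ (n : ℝ) := Nat.cast_nonneg n
  have hnL : 0 ≤ (n : ℝ) * L := by positivity
  have h1 := sum_windows M hF hL0 hε hz hv n hn3
  have hm0 : (0 : ℝ) ∈ Set.Icc (0 : ℝ) T := ⟨le_rfl, hT⟩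
  have hm1 : (n : ℝ) * L ∈ Set.Icc (0 : ℝ) T := ⟨hnL, hn3⟩
  have hm2 : T ∈ Set.Icc (0 : ℝ) T := ⟨hT, le_rfl⟩
  have h2 := geo_dst_le M hn3 (hz.mono hnL le_rfl)
  have h3 := dst_triangle M (hz _ hm0).1 (hz _ hm1).1 (hz _ hm2).1
  have h4 : (1 - ε / L) * T = T - ε * (T / L) := by
    field_simp
  rw [h4]
  nlinarith

end Pool.Agent.H.MP_bfbbee_an.ES
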