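import Mathlib
import Pool.Agent.H.MP_bfbbee_an.Seg

/-!
# One-sided first variation of the distance along a geodesic
-/

set_option autoImplicit false

namespace Pool.Agent.H.MP_bfbbee_an.ES

open Filter Topology

theorem dir_re (t : ℝ) : (dir t).re = Real.cos t := by
  unfold dir
  exact Complex.exp_ofReal_mul_I_re t

theorem dir_im (t : ℝ) : (dir t).im = Real.sin t := by
  unfold dir
  exact Complex.exp_ofReal_mul_I_im t

theorem norm_comb (k s t : ℝ) :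
    ‖(k : ℂ) * dir s + dir t‖ ^ 2 = k ^ 2 + 1 + 2 * k * Real.cos (t - s) := by
  rw [Complex.sq_norm, Complex.normSq_apply]
  simp only [Complex.add_re, Complex.add_im, Complex.mul_re, Complex.mul_im, Complex.ofReal_re,
    Complex.ofReal_im, dir_re, dir_im, zero_mul, sub_zero, add_zero]
  rw [Real.cos_sub]
  nlinarith [Real.sin_sq_add_cos_sq s, Real.sin_sq_add_cos_sq t]

theorem first_var_f {u : ℂ → ℝ} {A : ℝ} (M : Met u A) {x : ℂ} (hx : x ∈ Disc) {f : ℂ → ℝ}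
    (hf : Lip1 u f) {ℓ : ℝ} (hℓ : 0 < ℓ) {σ : ℝ → ℂ} {ϑ : ℝ → ℝ}
    (hσ : ∀ s ∈ Set.Icc (0 : ℝ) ℓ, f (σ s) = f x - s)
    (hgσ : IsGeodesicOn u 0 ℓ σ ϑ) (h0 : σ 0 = x) {a : ℝ} (ha : 0 < a)
    {z : ℝ → ℂ} {θ : ℝ → ℝ} (hz : IsGeodesicOn u 0 a z θ) (hza : z a = x) {r : ℝ}
    (hr : Real.cos (θ a - ϑ 0) < r) :
    ∀ᶠ h in 𝓝[>] (0 : ℝ), f (z (a - h)) < f x + r * h := by
  obtain ⟨r', hr1, hr2⟩ := exists_between hr
  obtain ⟨k, hk1, hk2⟩ : ∃ k : ℝ, 2 ≤ k ∧ 1 < 2 * k * (r' - Real.cos (θ a - ϑ 0)) := by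
    have hd : 0 < r' - Real.cos (θ a - ϑ 0) := by linarith
    refine ⟨max 2 (1 / (r' - Real.cos (θ a - ϑ 0))), le_max_left _ _, ?_⟩
    have h1 : 1 / (r' - Real.cos (θ a - ϑ 0)) ≤ max 2 (1 / (r' - Real.cos (θ a - ϑ 0))) :=
      le_max_right _ _
    rw [div_le_iff₀ hd] at h1
    linarith
  have hk0 : 0 < k := by linarith
  obtain ⟨ρ0, hρ0⟩ : ∃ ρ0, ρ0 = rho u x := ⟨_, rfl⟩
  have hρ : 0 < ρ0 := hρ0 ▸ rho_pos u hx
  obtain ⟨m, hm0, hma, hmk⟩ : ∃ m : ℝ, 0 < m ∧ m ≤ a ∧ k * m ≤ ℓ := by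
    refine ⟨min a (ℓ / k), lt_min ha (div_pos hℓ hk0), min_le_left _ _, ?_⟩
    have h1 : min a (ℓ / k) ≤ ℓ / k := min_le_right _ _
    rw [le_div_iff₀ hk0] at h1
    linarith
  have hP : HasDerivWithinAt (fun h : ℝ => z (a - h)) (-(dir (θ a) / (ρ0 : ℂ)))
      (Set.Icc 0 m) 0 := by
    have h1 := (hz a ⟨ha.le, le_rfl⟩).2.1
    rw [hza, ← hρ0] at h1
    have h2 : HasDerivWithinAt (fun h : ℝ => a - h) (-1) (Set.Icc 0 m) 0 :=
      ((hasDerivAt_id (0 : ℝ)).const_sub a).hasDerivWithinAt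
    have h3 : Set.MapsTo (fun h : ℝ => a - h) (Set.Icc 0 m) (Set.Icc 0 a) :=
      fun h hh => ⟨by linarith [hh.2], by linarith [hh.1]⟩
    have h1' : HasDerivWithinAt z (dir (θ a) / (ρ0 : ℂ)) (Set.Icc 0 a)
        ((fun h : ℝ => a - h) 0) := by
      simpa using h1
    have h4 := h1'.scomp (0 : ℝ) h2 h3
    rw [neg_one_smul] at h4
    exact h4
  have hQ : HasDerivWithinAt (fun h : ℝ => σ (k * h)) ((k : ℂ) * (dir (ϑ 0) / (ρ0 : ℂ)))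
      (Set.Icc 0 m) 0 := by
    have h1 := (hgσ 0 ⟨le_rfl, hℓ.le⟩).2.1
    rw [h0, ← hρ0] at h1
    have h2 : HasDerivWithinAt (fun h : ℝ => k * h) k (Set.Icc 0 m) 0 := by
      simpa using ((hasDerivAt_id (0 : ℝ)).const_mul k).hasDerivWithinAt
    have h3 : Set.MapsTo (fun h : ℝ => k * h) (Set.Icc 0 m) (Set.Icc 0 ℓ) :=
      fun h hh => ⟨mul_nonneg hk0.le hh.1, (mul_le_mul_of_nonneg_left hh.2 hk0.le).trans hmk⟩
    have h1' : HasDerivWithinAt σ (dir (ϑ 0) / (ρ0 : ℂ)) (Set.Icc 0 ℓ)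
        ((fun h : ℝ => k * h) 0) := by
      simpa using h1
    have h4 := h1'.scomp (0 : ℝ) h2 h3
    rw [Complex.real_smul] at h4
    exact h4
  have hD := hQ.sub hP
  have hset : Set.Icc (0 : ℝ) m \ {0} = Set.Ioc 0 m := by
    ext y
    simp only [Set.mem_sdiff, Set.mem_Icc, Set.mem_singleton_iff, Set.mem_Ioc]
    constructor
    · rintro ⟨⟨h1, h2⟩, h3⟩
      exact ⟨lt_of_le_of_ne h1 (Ne.symm h3), h2⟩
    · rintro ⟨h1, h2⟩
      exact ⟨⟨h1.le, h2⟩, h1.ne'⟩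
  have hsl := (hasDerivWithinAt_iff_tendsto_slope.1 hD)
  rw [hset, nhdsWithin_Ioc_eq_nhdsGT hm0] at hsl
  have hsub : 𝓝[>] (0 : ℝ) ≤ 𝓝[Set.Icc 0 m] 0 := by
    rw [← nhdsWithin_Ioc_eq_nhdsGT hm0]
    exact nhdsWithin_mono _ Set.Ioc_subset_Icc_self
  -- the norm of the derivative
  obtain ⟨N, hN⟩ : ∃ N, N = ‖(k : ℂ) * dir (ϑ 0) + dir (θ a)‖ := ⟨_, rfl⟩
  have hN0 : 0 ≤ N := hN ▸ norm_nonneg _
  have hN2 : N ^ 2 = k ^ 2 + 1 + 2 * k * Real.cos (θ a - ϑ 0) := by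
    rw [hN, norm_comb]
  have hcos := Real.neg_one_le_cos (θ a - ϑ 0)
  have hkr : 0 < k + r' := by linarith
  have hNk : N < k + r' := by
    have h1 : N ^ 2 < (k + r') ^ 2 := by nlinarith [sq_nonneg r']
    exact lt_of_pow_lt_pow_left₀ 2 hkr.le h1
  have hDn : ‖(k : ℂ) * (dir (ϑ 0) / (ρ0 : ℂ)) - -(dir (θ a) / (ρ0 : ℂ))‖ = N / ρ0 := by
    have e : (k : ℂ) * (dir (ϑ 0) / (ρ0 : ℂ)) - -(dir (θ a) / (ρ0 : ℂ)) =
        ((k : ℂ) * dir (ϑ 0) + dir (θ a)) / (ρ0 : ℂ) := by ring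
    rw [e, norm_div, ← hN, Complex.norm_real, Real.norm_of_nonneg hρ.le]
  obtain ⟨ε, hε0, hε⟩ : ∃ ε > 0, (ρ0 + ε) * (N / ρ0) < k + r := by
    refine ⟨ρ0 * (r - r') / (k + r'), by
      have : 0 < r - r' := by linarith
      positivity, ?_⟩
    have h1 : (ρ0 + ρ0 * (r - r') / (k + r')) * (N / ρ0) = N + (r - r') * (N / (k + r')) := by
      field_simp
    have h2 : N / (k + r') ≤ 1 := by
      rw [div_le_one hkr]
      exact hNk.le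
    rw [h1]
    nlinarith
  have hlim : Tendsto (fun h => (ρ0 + ε) * ‖slope ((fun h : ℝ => σ (k * h)) -
      fun h : ℝ => z (a - h)) 0 h‖) (𝓝[>] 0) (𝓝 ((ρ0 + ε) * (N / ρ0))) := by
    have := hsl.norm.const_mul (ρ0 + ε)
    rw [hDn] at this
    exact this
  obtain ⟨s, hs, hbs, hloc⟩ := dst_le_local M hx hε0
  have hPc : Tendsto (fun h : ℝ => z (a - h)) (𝓝[>] 0) (𝓝 x) := by
    have h1 := hP.continuousWithinAt.tendsto.mono_left hsub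
    simpa [hza] using h1
  have hQc : Tendsto (fun h : ℝ => σ (k * h)) (𝓝[>] 0) (𝓝 x) := by
    have h1 := hQ.continuousWithinAt.tendsto.mono_left hsub
    simpa [h0] using h1
  filter_upwards [hlim.eventually (gt_mem_nhds hε), hPc.eventually (Metric.ball_mem_nhds x hs),
    hQc.eventually (Metric.ball_mem_nhds x hs), Ioc_mem_nhdsGT hm0] with h h1 h2 h3 h4
  have hh0 : 0 < h := h4.1
  have hkh : k * h ≤ ℓ := (mul_le_mul_of_nonneg_left h4.2 hk0.le).trans hmk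
  have h5 := hloc _ h2 _ h3
  rw [← hρ0] at h5
  have h6 : f (σ (k * h)) = f x - k * h := hσ (k * h) ⟨by positivity, hkh⟩
  have h7 := hf _ (hbs h2) _ (hbs h3)
  have h8 : ‖slope ((fun h : ℝ => σ (k * h)) - fun h : ℝ => z (a - h)) 0 h‖ =
      ‖σ (k * h) - z (a - h)‖ / h := by
    rw [slope_def_module]
    simp only [Pi.sub_apply, mul_zero, sub_zero, h0, hza, sub_self, norm_smul, norm_inv,
      Real.norm_of_nonneg hh0.le]
    rw [div_eq_inv_mul]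
  rw [h8, mul_div_assoc', div_lt_iff₀ hh0] at h1
  linarith

theorem first_var {u : ℂ → ℝ} {A : ℝ} (M : Met u A) {x q : ℂ} (hx : x ∈ Disc) (hq : q ∈ Disc)
    {ℓ : ℝ} (hℓ : 0 < ℓ) {σ : ℝ → ℂ} {ϑ : ℝ → ℝ} (hσ : IsoOn u 0 ℓ σ)
    (hgσ : IsGeodesicOn u 0 ℓ σ ϑ) (h0 : σ 0 = x) (hℓq : σ ℓ = q) {a : ℝ} (ha : 0 < a)
    {z : ℝ → ℂ} {θ : ℝ → ℝ} (hz : IsGeodesicOn u 0 a z θ) (hza : z a = x) {r : ℝ}
    (hr : Real.cos (θ a - ϑ 0) < r) :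
    ∀ᶠ h in 𝓝[>] (0 : ℝ), dst u (z (a - h)) q < ℓ + r * h := by
  have h1 : ∀ s ∈ Set.Icc (0 : ℝ) ℓ, dst u (σ s) q = ℓ - s := by
    intro s hs
    have h7 := hσ.2 s hs ℓ ⟨hℓ.le, le_rfl⟩
    rw [hℓq, abs_sub_comm, abs_of_nonneg (by linarith [hs.2] : (0 : ℝ) ≤ ℓ - s)] at h7
    exact h7
  have h2 : dst u x q = ℓ := by
    have h3 := h1 0 ⟨le_rfl, hℓ.le⟩
    rw [h0, sub_zero] at h3
    exact h3
  have h3 := first_var_f M hx (f := fun y => dst u y q)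
    (fun y hy y' hy' => by
      have := dst_triangle M hy hy' hq
      linarith) hℓ (fun s hs => by
      show dst u (σ s) q = dst u x q - s
      rw [h2]
      exact h1 s hs) hgσ h0 ha hz hza hr
  simp only [h2] at h3
  exact h3

theorem cos_le_of_osc {u : ℂ → ℝ} {F : ℂ × ℝ → ℝ} (hF : FirstIntegral u F) {x : ℂ}
    (hx : x ∈ Disc) {α δ0 : ℝ} (hα0 : 0 ≤ α)
    (hosc : ∀ θ θ' : ℝ, |θ - θ'| ≤ α → |F (x, θ) - F (x, θ')| ≤ δ0) {θ ϑ : ℝ}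
    (h : δ0 < |F (x, θ) - F (x, ϑ)|) : Real.cos (θ - ϑ) ≤ Real.cos α := by
  by_contra hcon
  push Not at hcon
  have hpi := Real.pi_pos
  obtain ⟨k, hk⟩ : ∃ k : ℤ, |(θ - ϑ) / (2 * Real.pi) - k| ≤ 1 / 2 :=
    ⟨round ((θ - ϑ) / (2 * Real.pi)), abs_sub_round _⟩
  have h2 : |θ - ϑ - k * (2 * Real.pi)| ≤ Real.pi := by
    have e : θ - ϑ - k * (2 * Real.pi) = ((θ - ϑ) / (2 * Real.pi) - k) * (2 * Real.pi) := by
      field_simp
    rw [e, abs_mul, abs_of_pos (by positivity : (0 : ℝ) < 2 * Real.pi)]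
    nlinarith
  have h3 : Real.cos (θ - ϑ - k * (2 * Real.pi)) = Real.cos (θ - ϑ) :=
    Real.cos_sub_int_mul_two_pi _ _
  have h4 : |θ - ϑ - k * (2 * Real.pi)| ≤ α := by
    by_contra hc
    push Not at hc
    have h5 := Real.cos_le_cos_of_nonneg_of_le_pi hα0 h2 hc.le
    rw [Real.cos_abs, h3] at h5
    linarith
  have h5 := hosc θ (ϑ + 2 * Real.pi * k) (by
    have e : θ - (ϑ + 2 * Real.pi * k) = θ - ϑ - k * (2 * Real.pi) := by ring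
    rw [e]
    exact h4)
  have h6 : F (x, ϑ) = F (x, ϑ + 2 * Real.pi * k) :=
    F_congr hF hx ((dir_eq_iff _ _).2 ⟨k, rfl⟩)
  rw [← h6] at h5
  linarith

end Pool.Agent.H.MP_bfbbee_an.ES
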