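import Mathlib
import Pool.Agent.H.MP_bfbbee_an.ES.Co
import Pool.Agent.H.MP_bfbbee_an.ES.Fv
import Pool.Agent.H.MP_bfbbee_an.CalU

/-!
# Decrease of a function with calibrated rays along a geodesic
-/

set_option autoImplicit false

namespace Pool.Agent.H.MP_bfbbee_an.ES

open Filter Topology

/-- If the angle between the geodesic and a calibrated ray has cosine at most `κ` at every point,
the decrease of `b` along the geodesic is at most `κ` times the length. -/
theorem calib_bound {u : ℂ → ℝ} {A : ℝ} (M : Met u A) {b : ℂ → ℝ} (hb : Lip1 u b) {T κ : ℝ}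
    (hT : 0 ≤ T) {z : ℝ → ℂ} {θ : ℝ → ℝ} (hz : IsGeodesicOn u 0 T z θ)
    (hcal : ∀ t ∈ Set.Icc (0 : ℝ) T, ∃ r ϑ, Cal u b (z t) r ∧ GRay u r ϑ ∧
      Real.cos (θ t - ϑ 0) ≤ κ) : b (z 0) - b (z T) ≤ κ * T := by
  have hTT : T ∈ Set.Icc (0 : ℝ) T := ⟨hT, le_rfl⟩
  have hmz : ∀ τ ∈ Set.Icc (0 : ℝ) T, T - τ ∈ Set.Icc (0 : ℝ) T :=
    fun τ hτ => ⟨by linarith [hτ.2], by linarith [hτ.1]⟩
  have hlip : ∀ s ∈ Set.Icc (0 : ℝ) T, ∀ t ∈ Set.Icc (0 : ℝ) T,
      |b (z (T - s)) - b (z (T - t))| ≤ |s - t| := by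
    intro s hs t ht
    have h1 := geo_dst_le' M hz (hmz s hs) (hmz t ht)
    have h2 : |T - s - (T - t)| = |s - t| := by
      rw [show T - s - (T - t) = -(s - t) by ring, abs_neg]
    rw [h2] at h1
    have h3 := hb _ (hz _ (hmz s hs)).1 _ (hz _ (hmz t ht)).1
    have h4 := hb _ (hz _ (hmz t ht)).1 _ (hz _ (hmz s hs)).1
    rw [dst_comm] at h4
    rw [abs_le]
    constructor <;> linarith
  have hgc : ContinuousOn (fun τ => b (z (T - τ))) (Set.Icc 0 T) := by
    have h1 : LipschitzOnWith 1 (fun τ => b (z (T - τ))) (Set.Icc 0 T) := by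
      refine LipschitzOnWith.of_dist_le_mul fun s hs t ht => ?_
      rw [Real.dist_eq, Real.dist_eq, NNReal.coe_one, one_mul]
      exact hlip s hs t ht
    exact h1.continuousOn
  have key := image_le_of_liminf_slope_right_le_deriv_boundary
    (f := fun τ => b (z (T - τ))) (a := 0) (b := T) hgc
    (B := fun τ => b (z T) + κ * τ) (B' := fun _ => κ)
    (by simp) (by fun_prop) (fun τ _ => by
      have h1 : HasDerivAt (fun τ : ℝ => b (z T) + κ * τ) κ τ := by
        simpa using ((hasDerivAt_id τ).const_mul κ).const_add (b (z T))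
      exact h1.hasDerivWithinAt) ?_ hTT
  · simp only [sub_self] at key
    linarith
  · intro τ hτ r hr
    have hτ' : τ ∈ Set.Icc (0 : ℝ) T := ⟨hτ.1, hτ.2.le⟩
    have hτT : 0 < T - τ := by linarith [hτ.2]
    refine Eventually.frequently ?_
    have hx := (hz _ (hmz τ hτ')).1
    obtain ⟨σ, ϑ, hσ, hϑ, hcos⟩ := hcal _ (hmz τ hτ')
    have h5 := first_var_f M hx hb one_pos (σ := σ) (ϑ := ϑ)
      (fun s hs => hσ.cal s hs.1) (hϑ.geo 1 one_pos) hσ.start hτT
      (hz.mono le_rfl (by linarith [hτ.1] : T - τ ≤ T)) rfl (lt_of_le_of_lt hcos hr)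
    have h6 : Tendsto (fun y : ℝ => y - τ) (𝓝[>] τ) (𝓝[>] 0) := by
      rw [tendsto_nhdsWithin_iff]
      constructor
      · have h7 : Tendsto (fun y : ℝ => y - τ) (𝓝 τ) (𝓝 (τ - τ)) :=
          (continuous_id.sub continuous_const).tendsto τ
        rw [sub_self] at h7
        exact h7.mono_left nhdsWithin_le_nhds
      · filter_upwards [self_mem_nhdsWithin] with y hy
        have hy' : τ < y := hy
        exact Set.mem_Ioi.2 (sub_pos.2 hy')
    filter_upwards [h6.eventually h5, self_mem_nhdsWithin] with y hy1 hy2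
    have hy3 : τ < y := hy2
    have hy2' : 0 < y - τ := sub_pos.2 hy3
    rw [slope_def_field, div_lt_iff₀ hy2']
    have e : T - τ - (y - τ) = T - y := by ring
    rw [e] at hy1
    linarith

end Pool.Agent.H.MP_bfbbee_an.ES
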