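import Mathlib
import Pool.Agent.H.MP_bfbbee_an.OdeA
import Pool.Agent.H.MP_bfbbee_an.RegC

/-!
# Existence of geodesics of every length
-/

set_option autoImplicit false

namespace Pool.Agent.H.MP_bfbbee_an.ES

open Filter Topology Metric
open scoped NNReal

/-- Picard-Lindelöf, with the solution staying in the ball. -/
theorem pl_local {E : Type*} [NormedAddCommGroup E] [NormedSpace ℝ E] [CompleteSpace E]
    {f : E → E} {x₀ : E} {a L K : ℝ≥0} {τ : ℝ} (hτ : 0 ≤ τ)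
    (hb : ∀ x ∈ closedBall x₀ a, ‖f x‖ ≤ L) (hl : LipschitzOnWith K f (closedBall x₀ a))
    (hm : L * τ ≤ a) :
    ∃ α : ℝ → E, α 0 = x₀ ∧ ∀ t ∈ Set.Icc 0 τ, α t ∈ closedBall x₀ a ∧
      HasDerivWithinAt α (f (α t)) (Set.Icc 0 τ) t := by
  have hf : IsPicardLindelof (fun _ : ℝ => f) (⟨0, le_rfl, hτ⟩ : Set.Icc (0 : ℝ) τ) x₀ a 0 L K := by
    refine IsPicardLindelof.of_time_independent hb hl ?_
    simp only [sub_zero, sub_self, NNReal.coe_zero]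
    rw [max_eq_left hτ]
    exact hm
  have hx : x₀ ∈ closedBall x₀ ((0 : ℝ≥0) : ℝ) := mem_closedBall_self le_rfl
  obtain ⟨α, hα⟩ := ODE.FunSpace.exists_isFixedPt_next hf hx
  refine ⟨α.compProj, ?_, fun t ht => ⟨α.compProj_mem_closedBall hf.mul_max_le, ?_⟩⟩
  · have h1 := ODE.FunSpace.compProj_val (α := α) (t := (⟨0, le_rfl, hτ⟩ : Set.Icc (0 : ℝ) τ))
    have h2 : α (⟨0, le_rfl, hτ⟩ : Set.Icc (0 : ℝ) τ) = x₀ := by
      rw [← hα, ODE.FunSpace.next_apply₀]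
    rw [h2] at h1
    exact h1
  · apply ODE.hasDerivWithinAt_picard_Icc (⟨0, le_rfl, hτ⟩ : Set.Icc (0 : ℝ) τ).2
      hf.continuousOn_uncurry
      α.continuous_compProj.continuousOn (fun _ ht' ↦ α.compProj_mem_closedBall hf.mul_max_le)
      x₀ ht |>.congr_of_mem _ ht
    intro t' ht'
    nth_rw 1 [← hα]
    rw [ODE.FunSpace.compProj_of_mem ht', ODE.FunSpace.next_apply]

/-- Local existence, uniform on compact sets. -/
theorem geo_local {u : ℂ → ℝ} {A : ℝ} (M : Met u A) {R : ℝ} (hR0 : 0 ≤ R) (hR : R < 1) :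
    ∃ τ, 0 < τ ∧ τ ≤ 1 ∧ ∀ (y : ℂ) (ϑ : ℝ), ‖y‖ ≤ R → ∃ (z : ℝ → ℂ) (θ : ℝ → ℝ),
      IsGeodesicOn u 0 τ z θ ∧ z 0 = y ∧ θ 0 = ϑ := by
  obtain ⟨R', hRR', hR'⟩ := exists_between hR
  have hR'0 : 0 ≤ R' := hR0.trans hRR'.le
  obtain ⟨K, hK⟩ := field_lipschitz M hR'0 hR'
  obtain ⟨C, hC0, hC⟩ := kap_bdd M hR'0 hR'
  obtain ⟨B, hB⟩ : ∃ B : ℝ≥0, (B : ℝ) = max (1 / (2 * Real.exp (-A))) C + 1 :=
    ⟨⟨max (1 / (2 * Real.exp (-A))) C + 1, by
      have := le_max_right (1 / (2 * Real.exp (-A))) C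
      linarith⟩, rfl⟩
  have hB0 : 0 < (B : ℝ) := by
    rw [hB]
    have := le_max_right (1 / (2 * Real.exp (-A))) C
    linarith
  obtain ⟨a, ha⟩ : ∃ a : ℝ≥0, (a : ℝ) = R' - R := ⟨⟨R' - R, by linarith⟩, rfl⟩
  have ha0 : 0 < (a : ℝ) := by rw [ha]; linarith
  refine ⟨min 1 (a / B), lt_min one_pos (by positivity), min_le_left _ _,
    fun y ϑ hy => ?_⟩
  have hsub : closedBall ((y, ϑ) : ℂ × ℝ) a ⊆ closedBall (0 : ℂ) R' ×ˢ Set.univ := by
    intro p hp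
    refine ⟨?_, Set.mem_univ _⟩
    rw [mem_closedBall, Prod.dist_eq, max_le_iff, ha] at hp
    rw [mem_closedBall_zero_iff]
    have h1 := hp.1
    rw [dist_eq_norm] at h1
    have h2 := norm_add_le (p.1 - y) y
    rw [sub_add_cancel] at h2
    have h3 : ‖p.1 - y‖ ≤ R' - R := h1
    linarith
  obtain ⟨α, h0, hα⟩ := pl_local (f := fun x : ℂ × ℝ =>
      (dir x.2 / (rho u x.1 : ℂ), kap u x.1 (dir x.2))) (x₀ := (y, ϑ)) (a := a) (L := B) (K := K)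
    (τ := min 1 (a / B)) (by positivity) (fun x hx => by
      have hx1 := (hsub hx).1
      rw [mem_closedBall_zero_iff] at hx1
      have hxD : x.1 ∈ Disc := by
        rw [Disc, mem_ball_zero_iff]
        linarith
      rw [Prod.norm_def, max_le_iff]
      constructor
      · show ‖dir x.2 / (rho u x.1 : ℂ)‖ ≤ B
        rw [norm_div, norm_dir, Complex.norm_real, Real.norm_of_nonneg (rho_pos u hxD).le, hB]
        have h1 := one_div_le_one_div_of_le (by positivity : (0 : ℝ) < 2 * Real.exp (-A))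
          (rho_ge M hxD)
        have h2 := le_max_left (1 / (2 * Real.exp (-A))) C
        linarith
      · show ‖kap u x.1 (dir x.2)‖ ≤ B
        rw [Real.norm_eq_abs, hB]
        have h1 := hC x.1 (dir x.2) hx1 (norm_dir _)
        have h2 := le_max_right (1 / (2 * Real.exp (-A))) C
        linarith) (hK.mono hsub) (by
      have h1 : min 1 ((a : ℝ) / B) ≤ a / B := min_le_right _ _
      rw [le_div_iff₀ hB0] at h1
      linarith)
  refine ⟨fun t => (α t).1, fun t => (α t).2, fun t ht => ?_, congrArg Prod.fst h0,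
    congrArg Prod.snd h0⟩
  obtain ⟨h1, h2⟩ := hα t ht
  have h3 := (hsub h1).1
  rw [mem_closedBall_zero_iff] at h3
  refine ⟨?_, ?_, ?_⟩
  · rw [Disc, mem_ball_zero_iff]
    linarith
  · exact (hasFDerivAt_fst (𝕜 := ℝ) (p := α t)).comp_hasDerivWithinAt t h2
  · exact (hasFDerivAt_snd (𝕜 := ℝ) (p := α t)).comp_hasDerivWithinAt t h2

theorem deriv_notMem {E : Type*} [NormedAddCommGroup E] [NormedSpace ℝ E] {f : ℝ → E} {f' : E}
    {S : Set ℝ} {t : ℝ} (hn : t ∉ closure S) : HasDerivWithinAt f f' S t :=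
  hasDerivWithinAt_iff_hasFDerivWithinAt.2 (HasFDerivWithinAt.of_notMem_closure hn)

/-- Gluing of geodesics. -/
theorem geo_glue {u : ℂ → ℝ} {s τ : ℝ} (hs : 0 ≤ s) (hτ : 0 ≤ τ) {z1 z2 : ℝ → ℂ}
    {θ1 θ2 : ℝ → ℝ} (h1 : IsGeodesicOn u 0 s z1 θ1) (h2 : IsGeodesicOn u 0 τ z2 θ2)
    (hz : z2 0 = z1 s) (hθ : θ2 0 = θ1 s) :
    ∃ (z : ℝ → ℂ) (θ : ℝ → ℝ), IsGeodesicOn u 0 (s + τ) z θ ∧ z 0 = z1 0 ∧ θ 0 = θ1 0 := by
  classical
  have h3 := h2.shift (-s)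
  have e1 : (0 : ℝ) - -s = s := by ring
  have e2 : τ - -s = s + τ := by ring
  rw [e1, e2] at h3
  obtain ⟨z, hzdef⟩ : ∃ z : ℝ → ℂ, z = fun t => if t ≤ s then z1 t else z2 (t + -s) := ⟨_, rfl⟩
  obtain ⟨θ, hθdef⟩ : ∃ θ : ℝ → ℝ, θ = fun t => if t ≤ s then θ1 t else θ2 (t + -s) := ⟨_, rfl⟩
  have hzl : ∀ t ∈ Set.Icc 0 s, z t = z1 t := fun t ht => by
    rw [hzdef]
    simp only [ht.2, if_true]
  have hθl : ∀ t ∈ Set.Icc 0 s, θ t = θ1 t := fun t ht => by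
    rw [hθdef]
    simp only [ht.2, if_true]
  have hzr : ∀ t ∈ Set.Icc s (s + τ), z t = z2 (t + -s) := fun t ht => by
    rcases ht.1.eq_or_lt with h | h
    · rw [← h, hzl s ⟨hs, le_rfl⟩, ← hz]
      congr 1
      ring
    · rw [hzdef]
      simp only [not_le.2 h, if_false]
  have hθr : ∀ t ∈ Set.Icc s (s + τ), θ t = θ2 (t + -s) := fun t ht => by
    rcases ht.1.eq_or_lt with h | h
    · rw [← h, hθl s ⟨hs, le_rfl⟩, ← hθ]
      congr 1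
      ring
    · rw [hθdef]
      simp only [not_le.2 h, if_false]
  have hleft : ∀ t ∈ Set.Icc 0 s, z t ∈ Disc ∧
      HasDerivWithinAt z (dir (θ t) / (rho u (z t) : ℂ)) (Set.Icc 0 s) t ∧
      HasDerivWithinAt θ (kap u (z t) (dir (θ t))) (Set.Icc 0 s) t := by
    intro t ht
    obtain ⟨a1, a2, a3⟩ := h1 t ht
    rw [hzl t ht, hθl t ht]
    exact ⟨a1, a2.congr hzl (hzl t ht), a3.congr hθl (hθl t ht)⟩
  have hright : ∀ t ∈ Set.Icc s (s + τ), z t ∈ Disc ∧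
      HasDerivWithinAt z (dir (θ t) / (rho u (z t) : ℂ)) (Set.Icc s (s + τ)) t ∧
      HasDerivWithinAt θ (kap u (z t) (dir (θ t))) (Set.Icc s (s + τ)) t := by
    intro t ht
    obtain ⟨a1, a2, a3⟩ := h3 t ht
    rw [hzr t ht, hθr t ht]
    exact ⟨a1, a2.congr hzr (hzr t ht), a3.congr hθr (hθr t ht)⟩
  have hun : Set.Icc 0 (s + τ) = Set.Icc 0 s ∪ Set.Icc s (s + τ) :=
    (Set.Icc_union_Icc_eq_Icc hs (by linarith)).symm
  refine ⟨z, θ, fun t ht => ?_, hzl 0 ⟨le_rfl, hs⟩, hθl 0 ⟨le_rfl, hs⟩⟩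
  rw [hun]
  rcases lt_trichotomy t s with h | h | h
  · obtain ⟨a1, a2, a3⟩ := hleft t ⟨ht.1, h.le⟩
    have hn : t ∉ closure (Set.Icc s (s + τ)) := by
      rw [isClosed_Icc.closure_eq]
      exact fun h' => absurd h'.1 (not_le.2 h)
    exact ⟨a1, a2.union (deriv_notMem hn),
      a3.union (deriv_notMem hn)⟩
  · obtain ⟨a1, a2, a3⟩ := hleft t ⟨ht.1, h.le⟩
    obtain ⟨-, b2, b3⟩ := hright t ⟨h.ge, ht.2⟩
    exact ⟨a1, a2.union b2, a3.union b3⟩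
  · obtain ⟨a1, a2, a3⟩ := hright t ⟨h.le, ht.2⟩
    have hn : t ∉ closure (Set.Icc 0 s) := by
      rw [isClosed_Icc.closure_eq]
      exact fun h' => absurd h'.2 (not_le.2 h)
    exact ⟨a1, (deriv_notMem hn).union a2,
      (deriv_notMem hn).union a3⟩

/-- Existence of geodesics of every length with given initial vector. -/
theorem exists_geo {u : ℂ → ℝ} {A : ℝ} (M : Met u A) {x : ℂ} (hx : x ∈ Disc) (θ0 : ℝ) {T : ℝ}
    (hT : 0 ≤ T) : ∃ (z : ℝ → ℂ) (θ : ℝ → ℝ), IsGeodesicOn u 0 T z θ ∧ z 0 = x ∧ θ 0 = θ0 := by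
  have hx1 : ‖x‖ < 1 := mem_ball_zero_iff.1 hx
  obtain ⟨R', hR1, hR2, hconf⟩ := geo_confine M (norm_nonneg x) hx1 (T + 1) (by linarith)
  obtain ⟨τ, hτ0, hτ1, hloc⟩ := geo_local M ((norm_nonneg x).trans hR1) hR2
  have key : ∀ n : ℕ, (n : ℝ) * τ ≤ T + 1 → ∃ (z : ℝ → ℂ) (θ : ℝ → ℝ),
      IsGeodesicOn u 0 (n * τ) z θ ∧ z 0 = x ∧ θ 0 = θ0 := by
    intro n
    induction n with
    | zero =>
      intro _
      obtain ⟨z, θ, h1, h2, h3⟩ := hloc x θ0 hR1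
      refine ⟨z, θ, h1.mono le_rfl ?_, h2, h3⟩
      simpa using hτ0.le
    | succ n ih =>
      intro hn
      push_cast at hn
      have hn0 : 0 ≤ (n : ℝ) * τ := by positivity
      obtain ⟨z, θ, h1, h2, h3⟩ := ih (by linarith)
      have h4 : ‖z (n * τ)‖ ≤ R' := hconf 0 (n * τ) z θ h1 0 ⟨le_rfl, hn0⟩ (by rw [h2])
        (n * τ) ⟨hn0, le_rfl⟩ (by rw [sub_zero, abs_of_nonneg hn0]; linarith)
      obtain ⟨z', θ', g1, g2, g3⟩ := hloc (z (n * τ)) (θ (n * τ)) h4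
      obtain ⟨z'', θ'', k1, k2, k3⟩ := geo_glue hn0 hτ0.le h1 g1 g2 g3
      refine ⟨z'', θ'', ?_, by rw [k2, h2], by rw [k3, h3]⟩
      have e : ((n + 1 : ℕ) : ℝ) * τ = n * τ + τ := by push_cast; ring
      rw [e]
      exact k1
  obtain ⟨z, θ, h1, h2, h3⟩ := key ⌈T / τ⌉₊ (by
    have h1 := (Nat.ceil_lt_add_one (by positivity : 0 ≤ T / τ)).le
    have h2 : (⌈T / τ⌉₊ : ℝ) * τ ≤ (T / τ + 1) * τ := mul_le_mul_of_nonneg_right h1 hτ0.le
    have h3 : (T / τ + 1) * τ = T + τ := by field_simp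
    linarith)
  refine ⟨z, θ, h1.mono le_rfl ?_, h2, h3⟩
  have h4 := Nat.le_ceil (T / τ)
  rwa [div_le_iff₀ hτ0] at h4

end Pool.Agent.H.MP_bfbbee_an.ES
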