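import Mathlib
import Pool.Agent.H.MP_bfbbee_an.helper78.Shad

/-!
# Uniform shadowing of radii by minimal rays
-/

set_option autoImplicit false

namespace Pool.Agent.H.MP_bfbbee_an.ES

open Filter Topology Pool.Agent.H.MP_bfbbee_an.FL

/-- Every point of the radius of `ξ` is at bounded distance of every minimal ray to `ξ`, uniformly
in the rays starting in the disc of radius `R` (the proof is the one of `shadow_one`). -/
theorem shadow_uniform {u : ℂ → ℝ} {A : ℝ} (M : Met u A) {R : ℝ} (hco : Coco u R) :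
    ∃ D, 0 ≤ D ∧ ∀ (r : ℝ → ℂ) (θ : ℝ → ℝ), GRay u r θ → ‖r 0‖ ≤ R → ∀ ξ : ℂ, ‖ξ‖ = 1 →
      Tendsto r atTop (𝓝 ξ) →
      ∀ s : ℝ, 0 ≤ s → s < 1 → ∃ t, 0 ≤ t ∧ dst u (r t) (s * ξ) ≤ D := by
  have hR0 := hco.pos
  have hR := hco.lt
  obtain ⟨δ, hδ⟩ : ∃ δ, δ = (1 - R) ^ 2 * (1 - R) / 2 := ⟨_, rfl⟩
  have hR1 : 0 < 1 - R := by linarith
  have hδ0 : 0 < δ := by
    rw [hδ]
    positivity
  obtain ⟨β, hβ⟩ : ∃ β, β = δ / (8 * Real.exp (2 * A)) := ⟨_, rfl⟩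
  have hβ0 : 0 < β := by rw [hβ]; positivity
  have hβδ : 4 * Real.exp (2 * A) * β = δ / 2 := by
    rw [hβ]
    field_simp
    ring
  obtain ⟨R1, hR1def⟩ : ∃ R1, R1 = max R (Real.sqrt (1 - β ^ 3 / 16)) := ⟨_, rfl⟩
  have hR1lt : R1 < 1 := by
    rw [hR1def]
    apply max_lt hR
    rw [Real.sqrt_lt' one_pos]
    have : 0 < β ^ 3 := by positivity
    linarith
  have hR10 : 0 ≤ R1 := by
    rw [hR1def]
    exact hR0.trans (le_max_left _ _)
  have hR1q : 0 < 1 - R1 ^ 2 := by nlinarith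
  refine ⟨2 * Real.exp A / (1 - R1 ^ 2) * 2, by positivity,
    fun r θ hr hr0 ξ hξ hend s hs0 hs1 => ?_⟩
  have hx : r 0 ∈ Disc := hr.mem 0 le_rfl
  have hx1 : ‖r 0‖ < 1 := by simpa [Disc] using hx
  have hzn : ‖(s : ℂ) * ξ‖ = s := by
    rw [norm_mul, hξ, mul_one, Complex.norm_real, Real.norm_eq_abs, abs_of_nonneg hs0]
  have hz : (s : ℂ) * ξ ∈ Disc := by
    rw [Disc, mem_ball_zero_iff, hzn]
    exact hs1
  obtain ⟨w, a, hs, hm⟩ := hco.move _ hz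
  have hsep := radius_sep hs.hw hs.ha hx hξ hs0 hs1 hR hm
  have hsep : δ ≤ ‖mob w a (r 0) - mob w a ξ‖ := by
    refine le_trans ?_ hsep
    rw [hδ]
    have h1 : (1 - R) ^ 2 * (1 - R) ≤ (1 - R) ^ 2 * (1 - ‖r 0‖) :=
      mul_le_mul_of_nonneg_left (by linarith) (sq_nonneg _)
    linarith
  have hex : ∃ t, 0 ≤ t ∧ β ^ 3 < 16 * (1 - ‖mob w a (r t)‖ ^ 2) := by
    by_contra hcon
    push Not at hcon
    have h1 : ∀ T : ℝ, 0 ≤ T → ‖mob w a (r T) - mob w a (r 0)‖ ≤ δ / 2 := by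
      intro T hT
      have h2 : IsoOn u 0 T r := Decay_iso hr T
      have h3 := diam_small M hT (hs.isoOn M h2) hβ0.le (fun t ht => hcon t ht.1)
      rw [hβδ] at h3
      exact h3
    have h2 : Tendsto (fun T => ‖mob w a (r T) - mob w a (r 0)‖) atTop
        (𝓝 ‖mob w a ξ - mob w a (r 0)‖) :=
      ((((mob_hasDerivAt hs.ha hξ.le).continuousAt.tendsto).comp hend).sub_const _).norm
    have h3 : ‖mob w a ξ - mob w a (r 0)‖ ≤ δ / 2 := by
      refine le_of_tendsto h2 ?_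
      filter_upwards [eventually_ge_atTop (0 : ℝ)] with T hT using h1 T hT
    rw [norm_sub_rev] at h3
    linarith
  obtain ⟨t, ht0, ht⟩ := hex
  refine ⟨t, ht0, ?_⟩
  have hrt := hr.mem t ht0
  have h1 : ‖mob w a (r t)‖ ≤ R1 := by
    rw [hR1def]
    refine le_trans ?_ (le_max_right _ _)
    apply Real.le_sqrt_of_sq_le
    linarith
  have h2 : ‖mob w a (s * ξ)‖ ≤ R1 := hm.trans (by rw [hR1def]; exact le_max_left _ _)
  have h3 := dst_le_norm M hR10 hR1lt h1 h2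
  rw [hs.dst_eq M hrt hz] at h3
  refine h3.trans ?_
  apply mul_le_mul_of_nonneg_left _ (by positivity)
  have h4 := norm_sub_le (mob w a (s * ξ)) (mob w a (r t))
  linarith

end Pool.Agent.H.MP_bfbbee_an.ES
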