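import Mathlib
import Pool.Agent.H.MP_bfbbee_an.helper78.Jet

/-!
# Taylor bound in the fibre at a flat direction
-/

set_option autoImplicit false

namespace Pool.Agent.H.MP_bfbbee_an.ES

open Filter Topology Pool.Agent.H.MP_bfbbee_an.FL

/-- Taylor's bound for a chain of derivatives. -/
theorem chain_bound {g : ℕ → ℝ → ℝ} {m : ℕ} {t0 K : ℝ}
    (hd : ∀ j < m, ∀ t, HasDerivAt (g j) (g (j + 1) t) t) (h0 : ∀ j < m, g j t0 = 0)
    (hK : ∀ t, |g m t| ≤ K) : ∀ i ≤ m, ∀ t, |g (m - i) t| ≤ K * |t - t0| ^ i := by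
  intro i
  induction i with
  | zero =>
    intro _ t
    simpa using hK t
  | succ i ih =>
    intro hi t
    have hj : m - (i + 1) < m := by omega
    have e : m - (i + 1) + 1 = m - i := by omega
    have h1 := ih (by omega)
    have hK0 : 0 ≤ K := (abs_nonneg _).trans (hK 0)
    have h2 := Convex.norm_image_sub_le_of_norm_hasDerivWithin_le
      (f := g (m - (i + 1))) (f' := g (m - i)) (C := K * |t - t0| ^ i) (s := Set.uIcc t0 t)
      (x := t0) (y := t)
      (fun x _ => by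
        have := hd _ hj x
        rw [e] at this
        exact this.hasDerivWithinAt)
      (fun x hx => by
        rw [Real.norm_eq_abs]
        refine (h1 x).trans (mul_le_mul_of_nonneg_left ?_ hK0)
        refine pow_le_pow_left₀ (abs_nonneg _) ?_ i
        have h3 := Set.abs_sub_left_of_mem_uIcc hx
        exact h3)
      (convex_uIcc _ _) Set.left_mem_uIcc Set.right_mem_uIcc
    rw [h0 _ hj, sub_zero, Real.norm_eq_abs, Real.norm_eq_abs] at h2
    rw [pow_succ]
    linarith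

/-- the derivatives of `G` in the angle -/
noncomputable def gj (G : ℂ × ℝ → ℝ) (x : ℂ) (j : ℕ) (t : ℝ) : ℝ :=
  iteratedFDeriv ℝ j G (x, t) (fun _ => ((0 : ℂ), (1 : ℝ)))

theorem gj_zero (G : ℂ × ℝ → ℝ) (x : ℂ) (t : ℝ) : gj G x 0 t = G (x, t) := by
  unfold gj
  rw [iteratedFDeriv_zero_apply]

theorem gj_deriv {G : ℂ × ℝ → ℝ} {m : ℕ} (hC : ContDiffOn ℝ m G Dom) {x : ℂ} (hx : x ∈ Disc)
    {j : ℕ} (hj : j < m) (t : ℝ) : HasDerivAt (gj G x j) (gj G x (j + 1) t) t := by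
  have hC1 : ContDiffOn ℝ (j + 1 : ℕ) G Dom := hC.of_le (by exact_mod_cast hj)
  have hd := jet_differentiableAt hC1 (p := (x, t)) ⟨hx, Set.mem_univ _⟩
  have h1 : HasDerivAt (fun s : ℝ => ((x, s) : ℂ × ℝ)) ((0 : ℂ), (1 : ℝ)) t :=
    (hasDerivAt_const t x).prodMk (hasDerivAt_id t)
  have h2 := hd.hasFDerivAt.comp_hasDerivAt t h1
  have h3 := (ContinuousMultilinearMap.apply ℝ (fun _ : Fin j => ℂ × ℝ) ℝ
    (fun _ => ((0 : ℂ), (1 : ℝ)))).hasFDerivAt.comp_hasDerivAt t h2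
  have h4 : gj G x (j + 1) t = (ContinuousMultilinearMap.apply ℝ (fun _ : Fin j => ℂ × ℝ) ℝ
      (fun _ => ((0 : ℂ), (1 : ℝ)))) ((fderiv ℝ (iteratedFDeriv ℝ j G) (x, t)) (0, 1)) := by
    unfold gj
    rw [iteratedFDeriv_succ_apply_left]
    rfl
  rw [h4]
  exact h3

theorem gj_cont {G : ℂ × ℝ → ℝ} {m : ℕ} (hC : ContDiffOn ℝ m G Dom) :
    ContinuousOn (fun p : ℂ × ℝ => gj G p.1 m p.2) Dom := by
  have h1 := jet_continuousOn hC le_rfl
  exact (ContinuousMultilinearMap.apply ℝ (fun _ : Fin m => ℂ × ℝ) ℝ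
    (fun _ => ((0 : ℂ), (1 : ℝ)))).continuous.comp_continuousOn h1

theorem gj_eq {G : ℂ × ℝ → ℝ} {m : ℕ} (hC : ContDiffOn ℝ m G Dom) {x y : ℂ} (hx : x ∈ Disc)
    (hy : y ∈ Disc) {s : ℝ} (h : ∀ t, G (x, t) = G (y, t + s)) :
    ∀ j ≤ m, ∀ t, gj G x j t = gj G y j (t + s) := by
  intro j
  induction j with
  | zero =>
    intro _ t
    rw [gj_zero, gj_zero]
    exact h t
  | succ j ih =>
    intro hj t
    have h1 := ih (by omega)
    have h2 := gj_deriv hC hx (by omega : j < m) t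
    have h3 : HasDerivAt (fun t => gj G y j (t + s)) (gj G y (j + 1) (t + s)) t := by
      have h4 := (gj_deriv hC hy (by omega : j < m) (t + s)).comp t
        ((hasDerivAt_id t).add_const s)
      rw [mul_one] at h4
      exact h4
    have h5 : gj G x j = fun t => gj G y j (t + s) := funext h1
    rw [h5] at h2
    exact h2.unique h3

/-- The bound in the fibre at flat directions. -/
theorem fibre_bound {u : ℂ → ℝ} {F : ℂ × ℝ → ℝ} (hF : FirstIntegral u F) {R : ℝ}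
    (hco : CocoF u F R) (c : ℝ) {m : ℕ} (hC : ContDiffOn ℝ m F Dom) :
    ∃ K > 0, ∀ x ∈ Disc, ∀ θ ϑ : ℝ, JetP (fun p => F p - c) m x ϑ →
      |F (x, θ) - c| ≤ K * |θ - ϑ| ^ m := by
  have hC1 : ContDiffOn ℝ m (fun p => F p - c) Dom := ContDiffOn.sub hC contDiffOn_const
  have hR1 : Metric.closedBall (0 : ℂ) R ⊆ Disc := fun y hy => by
    rw [mem_closedBall_zero_iff] at hy
    rw [Disc, mem_ball_zero_iff]
    exact lt_of_le_of_lt hy hco.lt
  have hcomp : IsCompact (Metric.closedBall (0 : ℂ) R ×ˢ Set.Icc (0 : ℝ) (2 * Real.pi)) :=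
    (isCompact_closedBall _ _).prod isCompact_Icc
  obtain ⟨K, hK⟩ := hcomp.exists_bound_of_continuousOn ((gj_cont hC1).mono (fun p hp =>
    ⟨hR1 hp.1, Set.mem_univ _⟩))
  have hper : ∀ y ∈ Disc, ∀ j ≤ m, ∀ t : ℝ, gj (fun p => F p - c) y j t =
      gj (fun p => F p - c) y j (t + 2 * Real.pi) := by
    intro y hy
    refine gj_eq hC1 hy hy (fun t => ?_)
    show F (y, t) - c = F (y, t + 2 * Real.pi) - c
    rw [hF.per y hy t]
  have hb1 : ∀ y : ℂ, ‖y‖ ≤ R → ∀ t, |gj (fun p => F p - c) y m t| ≤ |K| + 1 := by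
    intro y hy t
    have hyD : y ∈ Disc := hR1 (by rwa [mem_closedBall_zero_iff])
    have hp : Function.Periodic (gj (fun p => F p - c) y m) (2 * Real.pi) :=
      fun s => (hper y hyD m le_rfl s).symm
    obtain ⟨s, hs, hs'⟩ := hp.exists_mem_Ico₀ (by positivity) t
    rw [hs']
    have h1 := hK (y, s) ⟨by rwa [mem_closedBall_zero_iff], ⟨hs.1, hs.2.le⟩⟩
    rw [Real.norm_eq_abs] at h1
    have h2 := le_abs_self K
    have h3 : |gj (fun p => F p - c) y m s| ≤ K := h1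
    linarith
  have hb : ∀ x ∈ Disc, ∀ t, |gj (fun p => F p - c) x m t| ≤ |K| + 1 := by
    intro x hx t
    obtain ⟨w, a, hs, hFs, hm⟩ := hco.move x hx
    have hy := mob_mem hs.hw hs.ha hx
    have hx1 : ‖x‖ < 1 := mem_ball_zero_iff.1 hx
    have hm0 := mobd_ne (w := w) hs.hw hs.ha hx1.le
    obtain ⟨s, -, hs1⟩ := exists_dir (v := mobd w a x / (‖mobd w a x‖ : ℂ)) (by
      rw [norm_div, Complex.norm_real, norm_norm, div_self (norm_ne_zero_iff.2 hm0)])
    have hdir : ∀ t, dir (t + s) = dir t * (mobd w a x / (‖mobd w a x‖ : ℂ)) := by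
      intro t
      rw [← hs1]
      unfold dir
      rw [← Complex.exp_add]
      congr 1
      push_cast
      ring
    have h1 := gj_eq hC1 hx hy (s := s) (fun t => by
      show F (x, t) - c = F (mob w a x, t + s) - c
      rw [hFs x hx t (t + s) (hdir t)]) m le_rfl t
    rw [h1]
    exact hb1 _ hm _
  refine ⟨|K| + 1, by positivity, fun x hx θ ϑ hJ => ?_⟩
  have h1 := chain_bound (g := gj (fun p => F p - c) x) (m := m) (t0 := ϑ) (K := |K| + 1)
    (fun j hj t => gj_deriv hC1 hx hj t) (fun j hj => by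
      unfold gj
      rw [hJ j hj.le]
      rfl) (hb x hx) m le_rfl θ
  rw [Nat.sub_self, gj_zero] at h1
  exact h1

end Pool.Agent.H.MP_bfbbee_an.ES
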