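import Mathlib
import Pool.Agent.H.MP_bfbbee_an.ES.Cb
import Pool.Agent.H.MP_bfbbee_an.ES.ShU
import Pool.Agent.H.MP_bfbbee_an.ES.Ta

/-!
# The escape rate for first integrals of class `C^m`
-/

set_option autoImplicit false

namespace Pool.Agent.H.MP_bfbbee_an.ES

open Filter Topology Pool.Agent.H.MP_bfbbee_an.FL

theorem sub_per {u : ℂ → ℝ} {F : ℂ × ℝ → ℝ} (hF : FirstIntegral u F) (c : ℝ) :
    ∀ z ∈ Disc, ∀ θ : ℝ,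
      (fun p => F p - c) (z, θ + 2 * Real.pi) = (fun p => F p - c) (z, θ) := by
  intro z hz θ
  show F (z, θ + 2 * Real.pi) - c = F (z, θ) - c
  rw [hF.per z hz θ]

theorem good_flat {u : ℂ → ℝ} {A : ℝ} (M : Met u A) {F : ℂ × ℝ → ℝ}
    (hF : FirstIntegral u F) {c : ℝ} (hc : ∀ ξ : ℂ, ‖ξ‖ = 1 → ∃ b, Good u F b c ξ)
    {m : ℕ} (hC : ContDiffOn ℝ m F Dom) {ξ : ℂ} (hξ : ‖ξ‖ = 1) :
    ∃ b, GoodP u (JetP (fun p => F p - c) m) b ξ := by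
  have h0 : ∀ ξ : ℂ, ‖ξ‖ = 1 → ∃ b, GoodP u (JetP (fun p => F p - c) 0) b ξ := by
    intro η hη
    obtain ⟨b, hb, hr⟩ := hc η hη
    refine ⟨b, hb, fun x hx => ?_⟩
    obtain ⟨r, θ, h1, h2, h3, h4⟩ := hr x hx
    refine ⟨r, θ, h1, h2, h3, fun j hj => ?_⟩
    obtain rfl : j = 0 := Nat.le_zero.1 hj
    ext v
    rw [iteratedFDeriv_zero_apply]
    show F (x, θ 0) - c = 0
    rw [h4, sub_self]
  obtain ⟨b, hb⟩ := exists_jetAll M (sub_per hF c) h0 hξ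
  exact ⟨b, goodP_mono hb (fun x hx θ h => h m (ContDiffOn.sub hC contDiffOn_const))⟩

theorem flat_rate_R {u : ℂ → ℝ} {A : ℝ} (M : Met u A) {F : ℂ × ℝ → ℝ}
    (hF : FirstIntegral u F) {R : ℝ} (hco : CocoF u F R) (hcoC : Coco u R) {c : ℝ}
    (hc : ∀ ξ : ℂ, ‖ξ‖ = 1 → ∃ b, Good u F b c ξ) {m : ℕ} (hm : 1 ≤ m)
    (hC : ContDiffOn ℝ m F Dom) :
    ∃ κ > 0, ∃ C ≥ 0, ∀ T ≥ 0, ∀ (z : ℝ → ℂ) (θ : ℝ → ℝ), IsGeodesicOn u 0 T z θ →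
      ‖z 0‖ ≤ R →
        dst u (z 0) (z T) ≤ (1 - κ * |F (z 0, θ 0) - c| ^ ((2 : ℝ) / m)) * T + C := by
  obtain ⟨K, hK0, hK⟩ := fibre_bound hF hco c hC
  obtain ⟨D, hD0, hD⟩ := shadow_uniform M hcoC
  have hpi := Real.pi_pos
  have hKr : 0 < K ^ ((2 : ℝ) / m) := Real.rpow_pos_of_pos hK0 _
  have hm0 : (0 : ℝ) < m := by exact_mod_cast hm
  refine ⟨2 / Real.pi ^ 2 / K ^ ((2 : ℝ) / m), by positivity, 2 * D, by positivity,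
    fun T hT z θ hz hz0 => ?_⟩
  have h00 : (0 : ℝ) ∈ Set.Icc (0 : ℝ) T := ⟨le_rfl, hT⟩
  have hTT : T ∈ Set.Icc (0 : ℝ) T := ⟨hT, le_rfl⟩
  have hzT : ‖z T‖ < 1 := mem_ball_zero_iff.1 (hz T hTT).1
  obtain ⟨ξ, s, hξ, hs0, hs1, hsξ⟩ : ∃ (ξ : ℂ) (s : ℝ), ‖ξ‖ = 1 ∧ 0 ≤ s ∧ s < 1 ∧
      (s : ℂ) * ξ = z T := by
    by_cases h : z T = 0
    · exact ⟨1, 0, by simp, le_rfl, one_pos, by simp [h]⟩
    · have hn : ‖z T‖ ≠ 0 := norm_ne_zero_iff.2 h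
      refine ⟨z T / (‖z T‖ : ℂ), ‖z T‖, ?_, norm_nonneg _, hzT, ?_⟩
      · rw [norm_div, Complex.norm_real, norm_norm, div_self hn]
      · have hn' : ((‖z T‖ : ℝ) : ℂ) ≠ 0 := by exact_mod_cast hn
        field_simp
  obtain ⟨b, hbL, hbc⟩ := good_flat M hF hc hC hξ
  obtain ⟨r, ϑ, hr, hg, hend, -⟩ := hbc (z 0) (hz 0 h00).1
  obtain ⟨t, ht0, htD⟩ := hD r ϑ hg (by rw [hr.start]; exact hz0) ξ hξ hend s hs0 hs1
  rw [hsξ] at htD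
  have h1 : b (r t) = b (z 0) - t := hr.cal t ht0
  have h2 := hbL _ (hz T hTT).1 _ (hr.mem t ht0)
  rw [dst_comm] at h2
  have h3 := dst_triangle M (hz 0 h00).1 (hr.mem t ht0) (hz T hTT).1
  have h4 := hr.one 0 le_rfl t ht0
  rw [hr.start, zero_sub, abs_neg, abs_of_nonneg ht0] at h4
  have h5 : dst u (z 0) (z T) - 2 * D ≤ b (z 0) - b (z T) := by linarith
  have h6 := calib_bound M hbL (T := T)
    (κ := 1 - 2 / Real.pi ^ 2 * (|F (z 0, θ 0) - c| / K) ^ ((2 : ℝ) / m)) hT hz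
    (fun t ht => by
      obtain ⟨r', ϑ', hr', hg', -, hJ⟩ := hbc (z t) (hz t ht).1
      refine ⟨r', ϑ', hr', hg', ?_⟩
      obtain ⟨k, hk⟩ : ∃ k : ℤ, |(θ t - ϑ' 0) / (2 * Real.pi) - k| ≤ 1 / 2 :=
        ⟨round ((θ t - ϑ' 0) / (2 * Real.pi)), abs_sub_round _⟩
      have e : θ t - ϑ' 0 - k * (2 * Real.pi) = θ t - (ϑ' 0 + 2 * Real.pi * k) := by ring
      have h2 : |θ t - (ϑ' 0 + 2 * Real.pi * k)| ≤ Real.pi := by
        have e2 : θ t - (ϑ' 0 + 2 * Real.pi * k) =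
            ((θ t - ϑ' 0) / (2 * Real.pi) - k) * (2 * Real.pi) := by
          field_simp
          ring
        rw [e2, abs_mul, abs_of_pos (by positivity : (0 : ℝ) < 2 * Real.pi)]
        nlinarith
      have h3 : Real.cos (θ t - (ϑ' 0 + 2 * Real.pi * k)) = Real.cos (θ t - ϑ' 0) := by
        rw [← e]
        exact Real.cos_sub_int_mul_two_pi _ _
      have h7 := jetP_per (sub_per hF c) m (z t) (hz t ht).1 _ _
        ((dir_eq_iff (ϑ' 0) (ϑ' 0 + 2 * Real.pi * k)).2 ⟨k, rfl⟩) hJ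
      have h8 := hK (z t) (hz t ht).1 (θ t) _ h7
      have hinv := hF.inv 0 t z θ ht.1 (hz.mono le_rfl ht.2)
      rw [← hinv] at h8
      have h9 := Real.cos_le_one_sub_mul_cos_sq h2
      rw [h3] at h9
      obtain ⟨β, hβ⟩ : ∃ β, β = θ t - (ϑ' 0 + 2 * Real.pi * k) := ⟨_, rfl⟩
      rw [← hβ] at h8 h9
      have h10 : |F (z 0, θ 0) - c| / K ≤ |β| ^ m := by
        rw [div_le_iff₀ hK0]
        linarith
      have h11 : (|F (z 0, θ 0) - c| / K) ^ ((2 : ℝ) / m) ≤ β ^ 2 := by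
        have h12 := Real.rpow_le_rpow (by positivity) h10
          (by positivity : (0 : ℝ) ≤ (2 : ℝ) / m)
        have h13 : (|β| ^ m) ^ ((2 : ℝ) / m) = β ^ 2 := by
          rw [← Real.rpow_natCast, ← Real.rpow_mul (abs_nonneg _), mul_div_cancel₀ _ hm0.ne',
            Real.rpow_two, sq_abs]
        rwa [h13] at h12
      have h14 : 0 < 2 / Real.pi ^ 2 := by positivity
      nlinarith [mul_le_mul_of_nonneg_left h11 h14.le])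
  have h7 : (|F (z 0, θ 0) - c| / K) ^ ((2 : ℝ) / m) =
      |F (z 0, θ 0) - c| ^ ((2 : ℝ) / m) / K ^ ((2 : ℝ) / m) :=
    Real.div_rpow (abs_nonneg _) hK0.le _
  rw [h7] at h6
  have h8 : 1 - 2 / Real.pi ^ 2 * (|F (z 0, θ 0) - c| ^ ((2 : ℝ) / m) / K ^ ((2 : ℝ) / m)) =
      1 - 2 / Real.pi ^ 2 / K ^ ((2 : ℝ) / m) * |F (z 0, θ 0) - c| ^ ((2 : ℝ) / m) := by
    ring
  rw [h8] at h6
  linarith

theorem flat_rate {u : ℂ → ℝ} {A : ℝ} (M : Met u A) {F : ℂ × ℝ → ℝ}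
    (hF : FirstIntegral u F) {R : ℝ} (hco : CocoF u F R) (hcoC : Coco u R) {c : ℝ}
    (hc : ∀ ξ : ℂ, ‖ξ‖ = 1 → ∃ b, Good u F b c ξ) {m : ℕ} (hm : 1 ≤ m)
    (hC : ContDiffOn ℝ m F (Disc ×ˢ (Set.univ : Set ℝ))) :
    ∃ κ > 0, ∃ C : ℝ, ∀ T ≥ 0, ∀ (z : ℝ → ℂ) (θ : ℝ → ℝ), IsGeodesicOn u 0 T z θ →
        dst u (z 0) (z T) ≤ (1 - κ * |F (z 0, θ 0) - c| ^ ((2 : ℝ) / m)) * T + C := by
  obtain ⟨κ, hκ, C, hC0, h⟩ := flat_rate_R M hF hco hcoC hc hm hC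
  refine ⟨κ, hκ, C, fun T hT z θ hz => ?_⟩
  have h00 : (0 : ℝ) ∈ Set.Icc (0 : ℝ) T := ⟨le_rfl, hT⟩
  have hTT : T ∈ Set.Icc (0 : ℝ) T := ⟨hT, le_rfl⟩
  rcases hT.eq_or_lt with rfl | hT'
  · rw [dst_self M (hz 0 h00).1, mul_zero, zero_add]
    exact hC0
  · obtain ⟨w, a, hs, hFs, hmv⟩ := hco.move (z 0) (hz 0 h00).1
    obtain ⟨θ', hθ'⟩ := geo_mob M hs hz
    have h1 := h T hT _ θ' hθ' hmv
    have hval : F (mob w a (z 0), θ' 0) = F (z 0, θ 0) :=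
      hFs _ (hz 0 h00).1 _ _ (hs.dir_eq hT' hz hθ' h00)
    rw [hval, hs.dst_eq M (hz 0 h00).1 (hz T hTT).1] at h1
    exact h1

end Pool.Agent.H.MP_bfbbee_an.ES
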