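import Mathlib
import Pool.Agent.H.MP_bfbbee_an.ES.Fl

/-!
# The escape rate in terms of the angle with calibrated rays
-/

set_option autoImplicit false

namespace Pool.Agent.H.MP_bfbbee_an.ES

open Filter Topology Pool.Agent.H.MP_bfbbee_an.FL

/-- If every vector with `|F - c| = f` makes with the vectors of property `P` an angle whose cosine
is at most `κ`, the distance of the end points of an arc with `|F - c| = f` is at most
`κ T + 2 D`, `D` the constant of `shadow_uniform`. -/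
theorem rate_main {u : ℂ → ℝ} {A : ℝ} (M : Met u A) {F : ℂ × ℝ → ℝ}
    (hF : FirstIntegral u F) {R : ℝ} (hco : CocoF u F R) {c D : ℝ} (hD0 : 0 ≤ D)
    (hD : ∀ (r : ℝ → ℂ) (θ : ℝ → ℝ), GRay u r θ → ‖r 0‖ ≤ R → ∀ ξ : ℂ, ‖ξ‖ = 1 →
      Tendsto r atTop (𝓝 ξ) →
      ∀ s : ℝ, 0 ≤ s → s < 1 → ∃ t, 0 ≤ t ∧ dst u (r t) (s * ξ) ≤ D)
    {P : ℂ → ℝ → Prop} (hP : ∀ ξ : ℂ, ‖ξ‖ = 1 → ∃ b, GoodP u P b ξ) {f κ : ℝ}
    (hκ : ∀ x ∈ Disc, ∀ θ ϑ : ℝ, P x ϑ → |F (x, θ) - c| = f → Real.cos (θ - ϑ) ≤ κ) :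
    ∀ T ≥ 0, ∀ (z : ℝ → ℂ) (θ : ℝ → ℝ), IsGeodesicOn u 0 T z θ → |F (z 0, θ 0) - c| = f →
      dst u (z 0) (z T) ≤ κ * T + 2 * D := by
  have key : ∀ T ≥ 0, ∀ (z : ℝ → ℂ) (θ : ℝ → ℝ), IsGeodesicOn u 0 T z θ →
      |F (z 0, θ 0) - c| = f → ‖z 0‖ ≤ R → dst u (z 0) (z T) ≤ κ * T + 2 * D := by
    intro T hT z θ hz hf hz0
    have h00 : (0 : ℝ) ∈ Set.Icc (0 : ℝ) T := ⟨le_rfl, hT⟩
    have hTT : T ∈ Set.Icc (0 : ℝ) T := ⟨hT, le_rfl⟩
    have hzT : ‖z T‖ < 1 := mem_ball_zero_iff.1 (hz T hTT).1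
    obtain ⟨ξ, s, hξ, hs0, hs1, hsξ⟩ : ∃ (ξ : ℂ) (s : ℝ), ‖ξ‖ = 1 ∧ 0 ≤ s ∧ s < 1 ∧
        (s : ℂ) * ξ = z T := by
      by_cases h : z T = 0
      · exact ⟨1, 0, by simp, le_rfl, one_pos, by simp [h]⟩
      · have hn : ‖z T‖ ≠ 0 := norm_ne_zero_iff.2 h
        refine ⟨z T / (‖z T‖ : ℂ), ‖z T‖, ?_, norm_nonneg _, hzT, ?_⟩
        · rw [norm_div, Complex.norm_real, norm_norm, div_self hn]
        · have hn' : ((‖z T‖ : ℝ) : ℂ) ≠ 0 := by exact_mod_cast hn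
          field_simp
    obtain ⟨b, hbL, hbc⟩ := hP ξ hξ
    obtain ⟨r, ϑ, hr, hg, hend, -⟩ := hbc (z 0) (hz 0 h00).1
    obtain ⟨t, ht0, htD⟩ := hD r ϑ hg (by rw [hr.start]; exact hz0) ξ hξ hend s hs0 hs1
    rw [hsξ] at htD
    have h1 : b (r t) = b (z 0) - t := hr.cal t ht0
    have h2 := hbL _ (hz T hTT).1 _ (hr.mem t ht0)
    rw [dst_comm] at h2
    have h3 := dst_triangle M (hz 0 h00).1 (hr.mem t ht0) (hz T hTT).1
    have h4 := hr.one 0 le_rfl t ht0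
    rw [hr.start, zero_sub, abs_neg, abs_of_nonneg ht0] at h4
    have h5 : dst u (z 0) (z T) - 2 * D ≤ b (z 0) - b (z T) := by linarith
    have h6 := calib_bound M hbL (T := T) (κ := κ) hT hz (fun t ht => by
      obtain ⟨r', ϑ', hr', hg', -, hJ⟩ := hbc (z t) (hz t ht).1
      refine ⟨r', ϑ', hr', hg', hκ _ (hz t ht).1 _ _ hJ ?_⟩
      rw [← hF.inv 0 t z θ ht.1 (hz.mono le_rfl ht.2)]
      exact hf)
    linarith
  intro T hT z θ hz hf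
  have h00 : (0 : ℝ) ∈ Set.Icc (0 : ℝ) T := ⟨le_rfl, hT⟩
  have hTT : T ∈ Set.Icc (0 : ℝ) T := ⟨hT, le_rfl⟩
  rcases hT.eq_or_lt with rfl | hT'
  · rw [dst_self M (hz 0 h00).1, mul_zero, zero_add]
    linarith
  · obtain ⟨w, a, hs, hFs, hmv⟩ := hco.move (z 0) (hz 0 h00).1
    obtain ⟨θ', hθ'⟩ := geo_mob M hs hz
    have hval : F (mob w a (z 0), θ' 0) = F (z 0, θ 0) :=
      hFs _ (hz 0 h00).1 _ _ (hs.dir_eq hT' hz hθ' h00)
    have h1 := key T hT _ θ' hθ' (by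
      show |F (mob w a (z 0), θ' 0) - c| = f
      rw [hval]
      exact hf) hmv
    rw [hs.dst_eq M (hz 0 h00).1 (hz T hTT).1] at h1
    exact h1

/-- The angle bound at flat directions. -/
theorem cos_le_flat {F : ℂ × ℝ → ℝ} {u : ℂ → ℝ} (hF : FirstIntegral u F) {c K : ℝ} {m : ℕ}
    (hm : 1 ≤ m) (hK0 : 0 < K)
    (hK : ∀ x ∈ Disc, ∀ θ ϑ : ℝ, JetP (fun p => F p - c) m x ϑ →
      |F (x, θ) - c| ≤ K * |θ - ϑ| ^ m) {x : ℂ} (hx : x ∈ Disc) {θ ϑ : ℝ}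
    (hJ : JetP (fun p => F p - c) m x ϑ) :
    Real.cos (θ - ϑ) ≤ 1 - 2 / Real.pi ^ 2 / K ^ ((2 : ℝ) / m) *
      |F (x, θ) - c| ^ ((2 : ℝ) / m) := by
  have hpi := Real.pi_pos
  have hm0 : (0 : ℝ) < m := by exact_mod_cast hm
  obtain ⟨k, hk⟩ : ∃ k : ℤ, |(θ - ϑ) / (2 * Real.pi) - k| ≤ 1 / 2 :=
    ⟨round ((θ - ϑ) / (2 * Real.pi)), abs_sub_round _⟩
  have e : θ - ϑ - k * (2 * Real.pi) = θ - (ϑ + 2 * Real.pi * k) := by ring
  have h2 : |θ - (ϑ + 2 * Real.pi * k)| ≤ Real.pi := by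
    have e2 : θ - (ϑ + 2 * Real.pi * k) =
        ((θ - ϑ) / (2 * Real.pi) - k) * (2 * Real.pi) := by
      field_simp
      ring
    rw [e2, abs_mul, abs_of_pos (by positivity : (0 : ℝ) < 2 * Real.pi)]
    nlinarith
  have h3 : Real.cos (θ - (ϑ + 2 * Real.pi * k)) = Real.cos (θ - ϑ) := by
    rw [← e]
    exact Real.cos_sub_int_mul_two_pi _ _
  have h7 := jetP_per (sub_per hF c) m x hx _ _
    ((dir_eq_iff ϑ (ϑ + 2 * Real.pi * k)).2 ⟨k, rfl⟩) hJ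
  have h8 := hK x hx θ _ h7
  have h9 := Real.cos_le_one_sub_mul_cos_sq h2
  rw [h3] at h9
  obtain ⟨β, hβ⟩ : ∃ β, β = θ - (ϑ + 2 * Real.pi * k) := ⟨_, rfl⟩
  rw [← hβ] at h8 h9
  have h10 : |F (x, θ) - c| / K ≤ |β| ^ m := by
    rw [div_le_iff₀ hK0]
    linarith
  have h11 : (|F (x, θ) - c| / K) ^ ((2 : ℝ) / m) ≤ β ^ 2 := by
    have h12 := Real.rpow_le_rpow (by positivity) h10
      (by positivity : (0 : ℝ) ≤ (2 : ℝ) / m)
    have h13 : (|β| ^ m) ^ ((2 : ℝ) / m) = β ^ 2 := by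
      rw [← Real.rpow_natCast, ← Real.rpow_mul (abs_nonneg _), mul_div_cancel₀ _ hm0.ne',
        Real.rpow_two, sq_abs]
    rwa [h13] at h12
  rw [Real.div_rpow (abs_nonneg _) hK0.le] at h11
  have h14 : 0 < 2 / Real.pi ^ 2 := by positivity
  have h15 : 2 / Real.pi ^ 2 / K ^ ((2 : ℝ) / m) * |F (x, θ) - c| ^ ((2 : ℝ) / m) =
      2 / Real.pi ^ 2 * (|F (x, θ) - c| ^ ((2 : ℝ) / m) / K ^ ((2 : ℝ) / m)) := by ring
  rw [h15]
  have h16 := mul_le_mul_of_nonneg_left h11 h14.le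
  linarith

/-- A continuous first integral is uniformly continuous in the angle. -/
theorem unif_osc {u : ℂ → ℝ} {F : ℂ × ℝ → ℝ} (hF : FirstIntegral u F) {R : ℝ}
    (hco : CocoF u F R) {δ : ℝ} (hδ : 0 < δ) :
    ∃ α, 0 < α ∧ α ≤ Real.pi ∧ ∀ x ∈ Disc, ∀ θ θ' : ℝ, |θ - θ'| ≤ α →
      |F (x, θ) - F (x, θ')| ≤ δ := by
  have hpi := Real.pi_pos
  have hR1 : Metric.closedBall (0 : ℂ) R ⊆ Disc := fun y hy => by
    rw [mem_closedBall_zero_iff] at hy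
    rw [Disc, mem_ball_zero_iff]
    exact lt_of_le_of_lt hy hco.lt
  have hcomp : IsCompact (Metric.closedBall (0 : ℂ) R ×ˢ
      Set.Icc (-Real.pi) (3 * Real.pi)) := (isCompact_closedBall _ _).prod isCompact_Icc
  have huc := hcomp.uniformContinuousOn_of_continuous
    (hF.cont.mono (fun p hp => ⟨hR1 hp.1, Set.mem_univ _⟩))
  rw [Metric.uniformContinuousOn_iff] at huc
  obtain ⟨ε, hε, hu⟩ := huc δ hδ
  refine ⟨min (ε / 2) Real.pi, lt_min (by linarith) hpi, min_le_right _ _,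
    fun x hx θ θ' hθ => ?_⟩
  obtain ⟨w, a, hs, hFs, hm⟩ := hco.move x hx
  have hx1 : ‖x‖ < 1 := mem_ball_zero_iff.1 hx
  have hm0 := mobd_ne (w := w) hs.hw hs.ha hx1.le
  have hyD := mob_mem hs.hw hs.ha hx
  obtain ⟨s, -, hs1⟩ := exists_dir (v := mobd w a x / (‖mobd w a x‖ : ℂ)) (by
    rw [norm_div, Complex.norm_real, norm_norm, div_self (norm_ne_zero_iff.2 hm0)])
  have hdir : ∀ t, dir (t + s) = dir t * (mobd w a x / (‖mobd w a x‖ : ℂ)) := by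
    intro t
    rw [← hs1]
    unfold dir
    rw [← Complex.exp_add]
    congr 1
    push_cast
    ring
  have hmv : ∀ t, F (x, t) = F (mob w a x, t + s) := fun t => (hFs x hx t (t + s) (hdir t)).symm
  have hper : ∀ (t : ℝ) (k : ℤ), F (mob w a x, t) = F (mob w a x, t + 2 * Real.pi * k) :=
    fun t k => F_congr hF hyD ((dir_eq_iff _ _).2 ⟨k, rfl⟩)
  obtain ⟨k, hk0, hk1⟩ : ∃ k : ℤ, 0 ≤ θ + s + 2 * Real.pi * k ∧
      θ + s + 2 * Real.pi * k ≤ 2 * Real.pi := by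
    refine ⟨-⌊(θ + s) / (2 * Real.pi)⌋, ?_, ?_⟩
    · have h1 := Int.floor_le ((θ + s) / (2 * Real.pi))
      rw [le_div_iff₀ (by positivity)] at h1
      push_cast
      linarith
    · have h1 := (Int.lt_floor_add_one ((θ + s) / (2 * Real.pi))).le
      rw [div_le_iff₀ (by positivity)] at h1
      push_cast
      linarith
  rw [hmv θ, hmv θ', hper _ k, hper (θ' + s) k]
  have hθ1 := hθ.trans (min_le_right _ _)
  have hθ2 := hθ.trans (min_le_left _ _)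
  rw [abs_le] at hθ1
  have h1 := hu (mob w a x, θ + s + 2 * Real.pi * k)
    ⟨by rwa [mem_closedBall_zero_iff], ⟨by linarith, by linarith⟩⟩
    (mob w a x, θ' + s + 2 * Real.pi * k)
    ⟨by rwa [mem_closedBall_zero_iff], ⟨by linarith, by linarith⟩⟩ (by
      rw [Prod.dist_eq, dist_self, Real.dist_eq]
      have e : θ + s + 2 * Real.pi * k - (θ' + s + 2 * Real.pi * k) = θ - θ' := by ring
      rw [e, max_lt_iff]
      exact ⟨hε, by linarith⟩)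
  rw [Real.dist_eq] at h1
  exact h1.le

end Pool.Agent.H.MP_bfbbee_an.ES
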