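import Mathlib
import Pool.Agent.H.MP_bfbbee_an.ES.Co
import Pool.Agent.H.MP_bfbbee_an.ES.Fv

/-!
# The escape rate is at most the cosine of the angle given by the oscillation of `F`
-/

set_option autoImplicit false

namespace Pool.Agent.H.MP_bfbbee_an.ES

open Filter Topology

theorem sharp_aux {u : ℂ → ℝ} {A : ℝ} (M : Met u A) {F : ℂ × ℝ → ℝ}
    (hF : FirstIntegral u F) {c δ δ0 α L T κ : ℝ} (hα0 : 0 ≤ α) (hα : α ≤ Real.pi / 2)
    (hosc : ∀ x ∈ Disc, ∀ θ θ' : ℝ, |θ - θ'| ≤ α → |F (x, θ) - F (x, θ')| ≤ δ0)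
    (hL0 : 0 < L)
    (hL : ∀ (σ : ℝ → ℂ) (θ : ℝ → ℝ), IsoOn u 0 L σ → IsGeodesicOn u 0 L σ θ →
      |F (σ 0, θ 0) - c| < δ - δ0) (hκ : 0 < κ)
    (hT : 0 ≤ T) {z : ℝ → ℂ} {θ : ℝ → ℝ} (hz : IsGeodesicOn u 0 T z θ)
    (hv : δ ≤ |F (z 0, θ 0) - c|) :
    dst u (z 0) (z T) ≤ (Real.cos α + κ) * T + (L + κ) := by
  classical
  have hcα : 0 ≤ Real.cos α := Real.cos_nonneg_of_neg_pi_div_two_le_of_le (by linarith) hα
  have hTT : T ∈ Set.Icc (0 : ℝ) T := ⟨hT, le_rfl⟩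
  have hmz : ∀ τ ∈ Set.Icc (0 : ℝ) T, T - τ ∈ Set.Icc (0 : ℝ) T :=
    fun τ hτ => ⟨by linarith [hτ.2], by linarith [hτ.1]⟩
  have hcz : ContinuousOn z (Set.Icc 0 T) := fun t ht => (hz t ht).2.1.continuousWithinAt
  have hcz' : ContinuousOn (fun τ => z (T - τ)) (Set.Icc 0 T) :=
    hcz.comp (continuous_const.sub continuous_id).continuousOn hmz
  have hqD : z T ∈ Disc := (hz T hTT).1
  have hgc : ContinuousOn (fun τ => dst u (z (T - τ)) (z T)) (Set.Icc 0 T) :=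
    (dst_continuousOn M).comp (hcz'.prodMk continuousOn_const)
      (fun τ hτ => ⟨(hz _ (hmz τ hτ)).1, hqD⟩)
  have key := image_le_of_liminf_slope_right_lt_deriv_boundary'
    (f := fun τ => dst u (z (T - τ)) (z T))
    (f' := fun τ => if dst u (z (T - τ)) (z T) ≤ L then 2 else Real.cos α)
    (a := 0) (b := T) hgc ?_
    (B := fun τ => (Real.cos α + κ) * τ + (L + κ)) (B' := fun _ => Real.cos α + κ)
    ?_ ?_ ?_ ?_ hTT
  · simpa using key
  · -- the slopes
    intro τ hτ r hr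
    have hτ' : τ ∈ Set.Icc (0 : ℝ) T := ⟨hτ.1, hτ.2.le⟩
    have hτT : 0 < T - τ := by linarith [hτ.2]
    refine Eventually.frequently ?_
    by_cases hg : dst u (z (T - τ)) (z T) ≤ L
    · simp only [hg, if_true] at hr
      filter_upwards [Ioo_mem_nhdsGT hτ.2] with y hy
      have hyI : y ∈ Set.Icc (0 : ℝ) T := ⟨by linarith [hτ.1, hy.1], hy.2.le⟩
      have h1 := geo_dst_le' M hz (hmz y hyI) (hmz τ hτ')
      have h2 : |T - y - (T - τ)| = y - τ := by
        rw [show T - y - (T - τ) = -(y - τ) by ring, abs_neg,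
          abs_of_pos (by linarith [hy.1] : (0 : ℝ) < y - τ)]
      rw [h2] at h1
      have h3 := dst_triangle M (hz _ (hmz y hyI)).1 (hz _ (hmz τ hτ')).1 hqD
      rw [slope_def_field, div_lt_iff₀ (by linarith [hy.1] : (0 : ℝ) < y - τ)]
      nlinarith [hy.1]
    · simp only [hg, if_false] at hr
      push Not at hg
      have hx := (hz _ (hmz τ hτ')).1
      have hℓ : 0 < dst u (z (T - τ)) (z T) := hL0.trans hg
      obtain ⟨σ, hσ, hσ0, hσ1⟩ := exists_seg M hx hqD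
      obtain ⟨ϑ, hϑ⟩ := iso_geodesic M hℓ hσ
      have hσL : IsoOn u 0 L σ := ⟨fun t ht => hσ.1 t ⟨ht.1, ht.2.trans hg.le⟩,
        fun s hs t ht => hσ.2 s ⟨hs.1, hs.2.trans hg.le⟩ t ⟨ht.1, ht.2.trans hg.le⟩⟩
      have h1 := hL σ ϑ hσL (hϑ.mono le_rfl hg.le)
      rw [hσ0] at h1
      have h2 := hF.inv 0 (T - τ) z θ hτT.le (hz.mono le_rfl (by linarith [hτ.1]))
      rw [h2] at hv
      have h3 : δ0 < |F (z (T - τ), θ (T - τ)) - F (z (T - τ), ϑ 0)| := by
        have h4 := abs_sub_le (F (z (T - τ), θ (T - τ))) (F (z (T - τ), ϑ 0)) c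
        linarith
      have h4 := cos_le_of_osc hF hx hα0 (hosc _ hx) h3
      have h5 := first_var M hx hqD hℓ hσ hϑ hσ0 hσ1 hτT
        (hz.mono le_rfl (by linarith [hτ.1] : T - τ ≤ T)) rfl (lt_of_le_of_lt h4 hr)
      have h6 : Tendsto (fun y : ℝ => y - τ) (𝓝[>] τ) (𝓝[>] 0) := by
        rw [tendsto_nhdsWithin_iff]
        constructor
        · have h7 : Tendsto (fun y : ℝ => y - τ) (𝓝 τ) (𝓝 (τ - τ)) :=
            (continuous_id.sub continuous_const).tendsto τ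
          rw [sub_self] at h7
          exact h7.mono_left nhdsWithin_le_nhds
        · filter_upwards [self_mem_nhdsWithin] with y hy
          have hy' : τ < y := hy
          exact Set.mem_Ioi.2 (sub_pos.2 hy')
      filter_upwards [h6.eventually h5, self_mem_nhdsWithin] with y hy1 hy2
      have hy3 : τ < y := hy2
      have hy2' : 0 < y - τ := sub_pos.2 hy3
      rw [slope_def_field, div_lt_iff₀ hy2']
      have e : T - τ - (y - τ) = T - y := by ring
      rw [e] at hy1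
      linarith
  · simp only [sub_zero]
    rw [dst_self M hqD]
    have := hL0
    linarith
  · exact ((continuous_const.mul continuous_id).add continuous_const).continuousOn
  · intro τ _
    have h1 : HasDerivAt (fun τ : ℝ => (Real.cos α + κ) * τ + (L + κ)) (Real.cos α + κ) τ := by
      simpa using ((hasDerivAt_id τ).const_mul (Real.cos α + κ)).add_const (L + κ)
    exact h1.hasDerivWithinAt
  · intro τ hτ he
    have he' : dst u (z (T - τ)) (z T) = (Real.cos α + κ) * τ + (L + κ) := he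
    have h1 : 0 ≤ (Real.cos α + κ) * τ := mul_nonneg (by linarith) hτ.1
    have h2 : ¬ dst u (z (T - τ)) (z T) ≤ L := by
      rw [he']
      push Not
      linarith
    simp only [h2, if_false]
    linarith

theorem sharp {u : ℂ → ℝ} {A : ℝ} (M : Met u A) {F : ℂ × ℝ → ℝ}
    (hF : FirstIntegral u F) {c δ δ0 α L T : ℝ} (hα0 : 0 ≤ α) (hα : α ≤ Real.pi / 2)
    (hosc : ∀ x ∈ Disc, ∀ θ θ' : ℝ, |θ - θ'| ≤ α → |F (x, θ) - F (x, θ')| ≤ δ0)
    (hL0 : 0 < L)
    (hL : ∀ (σ : ℝ → ℂ) (θ : ℝ → ℝ), IsoOn u 0 L σ → IsGeodesicOn u 0 L σ θ →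
      |F (σ 0, θ 0) - c| < δ - δ0)
    (hT : 0 ≤ T) {z : ℝ → ℂ} {θ : ℝ → ℝ} (hz : IsGeodesicOn u 0 T z θ)
    (hv : δ ≤ |F (z 0, θ 0) - c|) :
    dst u (z 0) (z T) ≤ Real.cos α * T + L := by
  refine le_of_forall_pos_le_add fun e he => ?_
  have hκ : 0 < e / (T + 1) := by positivity
  have h1 := sharp_aux M hF hα0 hα hosc hL0 hL hκ hT hz hv
  have h2 : e / (T + 1) * (T + 1) = e := by field_simp
  nlinarith

end Pool.Agent.H.MP_bfbbee_an.ES
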