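import Mathlib
import Pool.Agent.H.MP_bfbbee_an.ES.Rm
import Pool.Agent.H.MP_bfbbee_an.ES.Ex

/-!
# The bound of `|F - c|` by the variation of `F` over quarter turns
-/

set_option autoImplicit false

namespace Pool.Agent.H.MP_bfbbee_an.ES

open Filter Topology Pool.Agent.H.MP_bfbbee_an.FL

/-- The escape rate of the geodesics with `|F - c| > δ`, where `F` varies by at most `δ` over
angles at most `α`. -/
theorem rate_osc {u : ℂ → ℝ} {A : ℝ} (M : Met u A) {F : ℂ × ℝ → ℝ}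
    (hF : FirstIntegral u F) {R : ℝ} (hco : CocoF u F R) {c D : ℝ} (hD0 : 0 ≤ D)
    (hD : ∀ (r : ℝ → ℂ) (θ : ℝ → ℝ), GRay u r θ → ‖r 0‖ ≤ R → ∀ ξ : ℂ, ‖ξ‖ = 1 →
      Tendsto r atTop (𝓝 ξ) →
      ∀ s : ℝ, 0 ≤ s → s < 1 → ∃ t, 0 ≤ t ∧ dst u (r t) (s * ξ) ≤ D)
    (hc : ∀ ξ : ℂ, ‖ξ‖ = 1 → ∃ b, Good u F b c ξ) {α δ : ℝ} (hα0 : 0 ≤ α)
    (hosc : ∀ x ∈ Disc, ∀ θ θ' : ℝ, |θ - θ'| ≤ α → |F (x, θ) - F (x, θ')| ≤ δ) :
    ∀ T ≥ 0, ∀ (z : ℝ → ℂ) (θ : ℝ → ℝ), IsGeodesicOn u 0 T z θ →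
      δ < |F (z 0, θ 0) - c| → dst u (z 0) (z T) ≤ Real.cos α * T + 2 * D := by
  intro T hT z θ hz hδ
  refine rate_main M hF hco hD0 hD (P := fun x ϑ => F (x, ϑ) = c)
    (f := |F (z 0, θ 0) - c|) (fun ξ hξ => hc ξ hξ) (fun x hx θ' ϑ hP hf => ?_) T hT z θ hz rfl
  refine cos_le_of_osc hF hx hα0 (hosc x hx) ?_
  have hP' : F (x, ϑ) = c := hP
  rw [hP', hf]
  exact hδ

/-- A first integral differs from `c` by at most its variation over quarter turns. -/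
theorem sup_le {u : ℂ → ℝ} {A : ℝ} (M : Met u A) {F : ℂ × ℝ → ℝ}
    (hF : FirstIntegral u F) {R : ℝ} (hco : CocoF u F R) {c D : ℝ} (hD0 : 0 ≤ D)
    (hD : ∀ (r : ℝ → ℂ) (θ : ℝ → ℝ), GRay u r θ → ‖r 0‖ ≤ R → ∀ ξ : ℂ, ‖ξ‖ = 1 →
      Tendsto r atTop (𝓝 ξ) →
      ∀ s : ℝ, 0 ≤ s → s < 1 → ∃ t, 0 ≤ t ∧ dst u (r t) (s * ξ) ≤ D)
    (hc : ∀ ξ : ℂ, ‖ξ‖ = 1 → ∃ b, Good u F b c ξ) {δ : ℝ}
    (hosc : ∀ x ∈ Disc, ∀ θ θ' : ℝ, |θ - θ'| ≤ Real.pi / 2 → |F (x, θ) - F (x, θ')| ≤ δ) :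
    ∀ x ∈ Disc, ∀ θ : ℝ, |F (x, θ) - c| ≤ δ := by
  intro x hx θ
  have hpi := Real.pi_pos
  refine le_of_forall_pos_le_add fun ε hε => ?_
  by_contra hcon
  push Not at hcon
  obtain ⟨β, hβ0, hβ1, hβ⟩ := unif_osc hF hco (half_pos hε)
  have hα : ∀ y ∈ Disc, ∀ θ θ' : ℝ, |θ - θ'| ≤ Real.pi / 2 + min β (Real.pi / 2) →
      |F (y, θ) - F (y, θ')| ≤ δ + ε := by
    intro y hy θ θ' h
    have hm1 : min β (Real.pi / 2) ≤ β := min_le_left _ _
    have hm0 : 0 ≤ min β (Real.pi / 2) := le_min hβ0.le (by positivity)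
    obtain ⟨θ'', h1, h2⟩ : ∃ θ'', |θ - θ''| ≤ Real.pi / 2 ∧ |θ'' - θ'| ≤ β := by
      rcases le_total θ θ' with hle | hle
      · rw [abs_sub_comm, abs_of_nonneg (by linarith : (0 : ℝ) ≤ θ' - θ)] at h
        refine ⟨min θ' (θ + Real.pi / 2), ?_, ?_⟩
        · rw [abs_le]
          constructor
          · linarith [min_le_right θ' (θ + Real.pi / 2)]
          · linarith [le_min hle (by linarith : θ ≤ θ + Real.pi / 2)]
        · rw [abs_le]
          constructor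
          · have : θ' - β ≤ min θ' (θ + Real.pi / 2) := le_min (by linarith) (by linarith)
            linarith
          · linarith [min_le_left θ' (θ + Real.pi / 2)]
      · rw [abs_of_nonneg (by linarith : (0 : ℝ) ≤ θ - θ')] at h
        refine ⟨max θ' (θ - Real.pi / 2), ?_, ?_⟩
        · rw [abs_le]
          constructor
          · linarith [max_le hle (by linarith : θ - Real.pi / 2 ≤ θ)]
          · linarith [le_max_right θ' (θ - Real.pi / 2)]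
        · rw [abs_le]
          constructor
          · linarith [le_max_left θ' (θ - Real.pi / 2)]
          · have : max θ' (θ - Real.pi / 2) ≤ θ' + β := max_le (by linarith) (by linarith)
            linarith
    have h3 := hosc y hy _ _ h1
    have h4 := hβ y hy _ _ h2
    have h5 := abs_sub_le (F (y, θ)) (F (y, θ'')) (F (y, θ'))
    linarith
  have hm0 : 0 < min β (Real.pi / 2) := lt_min hβ0 (by positivity)
  have hcos : Real.cos (Real.pi / 2 + min β (Real.pi / 2)) < 0 :=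
    Real.cos_neg_of_pi_div_two_lt_of_lt (by linarith)
      (by linarith [min_le_right β (Real.pi / 2)])
  obtain ⟨T, hT0, hT⟩ : ∃ T : ℝ, 0 ≤ T ∧
      Real.cos (Real.pi / 2 + min β (Real.pi / 2)) * T + 2 * D < 0 := by
    refine ⟨(2 * D + 1) / -Real.cos (Real.pi / 2 + min β (Real.pi / 2)),
      div_nonneg (by linarith) (by linarith), ?_⟩
    have h1 : Real.cos (Real.pi / 2 + min β (Real.pi / 2)) *
        ((2 * D + 1) / -Real.cos (Real.pi / 2 + min β (Real.pi / 2))) = -(2 * D + 1) := by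
      have h2 : Real.cos (Real.pi / 2 + min β (Real.pi / 2)) ≠ 0 := hcos.ne
      rw [div_neg, mul_neg, mul_div_cancel₀ _ h2]
    rw [h1]
    linarith
  obtain ⟨z, ϑ, hz, hz0, hϑ0⟩ := exists_geo M hx θ hT0
  have h1 := rate_osc M hF hco hD0 hD hc (by positivity) hα T hT0 z ϑ hz (by
    rw [hz0, hϑ0]
    exact hcon)
  have h2 := dst_nonneg M (z 0) (z T)
  linarith

end Pool.Agent.H.MP_bfbbee_an.ES
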